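import Pool.Agent.P.MP_7e3bdd_an.Dx.Proj

/-!
Sums of orthogonal families of partial isometries, comparison of projections, and isometries
with orthogonal ranges.
-/

set_option autoImplicit false

open scoped InnerProductSpace Topology ComplexConjugate
open Filter

noncomputable section

namespace Pool.Agent.P.MP_7e3bdd_an.Dx

variable {H : Type} [NormedAddCommGroup H] [InnerProductSpace ℂ H] [CompleteSpace H]

/-- An ultrafilter refining the filter of large finite sets. -/
def UF (ι : Type) : Ultrafilter (Finset ι) := Ultrafilter.of atTop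

theorem UF_mem {ι : Type} (i : ι) : ∀ᶠ F in (UF ι : Filter (Finset ι)), i ∈ F :=
  (Ultrafilter.of_le atTop) ((eventually_ge_atTop ({i} : Finset ι)).mono
    (fun _ hF => hF (Finset.mem_singleton_self i)))

theorem pi_sum {ι : Type} (t : ι → Op H) (ht : ∀ i, PI (t i))
    (h1 : ∀ i j, i ≠ j → star (t i) * t j = 0) (h2 : ∀ i j, i ≠ j → t i * star (t j) = 0)
    (F : Finset ι) : PI (∑ i ∈ F, t i) := by
  have ha : star (∑ i ∈ F, t i) * ∑ i ∈ F, t i = ∑ i ∈ F, star (t i) * t i := by
    rw [star_sum, Finset.sum_mul]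
    refine Finset.sum_congr rfl (fun i hi => ?_)
    rw [Finset.mul_sum, Finset.sum_eq_single i (fun j _ hj => h1 i j hj.symm)
      (fun h => absurd hi h)]
  rw [PI, mul_assoc, ha, Finset.sum_mul]
  refine Finset.sum_congr rfl (fun i hi => ?_)
  rw [Finset.mul_sum, Finset.sum_eq_single i (fun j _ hj => by
    rw [← mul_assoc, h2 i j hj.symm, zero_mul]) (fun h => absurd hi h), ← mul_assoc, ht i]

theorem sum_half {ι : Type} (t : ι → Op H) (ht : ∀ i, PI (t i))
    (h2 : ∀ i j, i ≠ j → t i * star (t j) = 0) {W : Op H}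
    (hW : WL (UF ι : Filter (Finset ι)) (fun F => ∑ i ∈ F, t i) W) :
    (∀ i, W * star (t i) = t i * star (t i)) ∧
      W * pr (Set.range fun i => star (t i) * t i) = W := by
  constructor
  · intro i
    refine (hW.mul_right _).eq (WL.const _) ((UF_mem i).mono (fun F hF => ?_))
    rw [Finset.sum_mul, Finset.sum_eq_single i (fun j _ hj => h2 j i hj) (fun h => absurd hF h)]
  · refine (hW.mul_right _).eq hW (Eventually.of_forall (fun F => ?_))
    rw [Finset.sum_mul]
    refine Finset.sum_congr rfl (fun i _ => ?_)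
    have h3 := congrArg star (pr_mul (A := Set.range fun i => star (t i) * t i) ⟨i, rfl⟩)
    rw [star_mul, (pr_proj _).isSelfAdjoint.star_eq, (ht i).proj.isSelfAdjoint.star_eq] at h3
    conv_lhs => rw [← ht i]
    rw [mul_assoc (t i), mul_assoc (t i), h3, ← mul_assoc, ht i]

theorem exists_sum (N : VonNeumannAlgebra H) {ι : Type} (t : ι → Op H) (hN : ∀ i, t i ∈ N)
    (ht : ∀ i, PI (t i)) (h1 : ∀ i j, i ≠ j → star (t i) * t j = 0)
    (h2 : ∀ i j, i ≠ j → t i * star (t j) = 0) :
    ∃ W ∈ N, star W * W = pr (Set.range fun i => star (t i) * t i) ∧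
      W * star W = pr (Set.range fun i => t i * star (t i)) ∧
      ∀ i, W * (star (t i) * t i) = t i := by
  obtain ⟨W, hW⟩ := exists_wl (UF ι) (fun F => ∑ i ∈ F, t i) 1
    (Eventually.of_forall (fun F => (pi_sum t ht h1 h2 F).norm_le))
  have hW' : WL (UF ι : Filter (Finset ι)) (fun F => ∑ i ∈ F, star (t i)) (star W) := by
    simpa only [star_sum] using hW.star
  obtain ⟨a1, a2⟩ := sum_half t ht h2 hW
  obtain ⟨b1, b2⟩ := sum_half (fun i => star (t i)) (fun i => (ht i).star)
    (fun i j hij => by simpa only [star_star] using h1 i j hij) hW'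
  simp only [star_star] at b1 b2
  have c1 : ∀ i, W * (star (t i) * t i) = t i := fun i => by rw [← mul_assoc, a1, ht i]
  have c2 : ∀ i, star W * (t i * star (t i)) = star (t i) := fun i => by
    rw [← mul_assoc, b1]
    simpa only [PI, star_star] using (ht i).star
  refine ⟨W, hW.mem N (Eventually.of_forall (fun F => sum_mem (fun i _ => hN i))), ?_, ?_, c1⟩
  · have := mul_pr_eq (A := Set.range fun i => star (t i) * t i) (X := star W * W) (Y := 1) (by
      rintro _ ⟨i, rfl⟩
      rw [mul_assoc, c1, b1, one_mul])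
    rwa [mul_assoc, a2, one_mul] at this
  · have := mul_pr_eq (A := Set.range fun i => t i * star (t i)) (X := W * star W) (Y := 1) (by
      rintro _ ⟨i, rfl⟩
      rw [mul_assoc, c2, a1, one_mul])
    rwa [mul_assoc, b2, one_mul] at this

theorem exists_maximal_family {α : Type} (A : Set α) (R : α → α → Prop)
    (hR : ∀ a b, R a b → R b a) :
    ∃ T ⊆ A, T.Pairwise R ∧ ∀ a ∈ A, (∀ b ∈ T, R a b) → a ∈ T := by
  obtain ⟨T, hT⟩ := zorn_subset {T : Set α | T ⊆ A ∧ T.Pairwise R} (fun c hc hch =>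
    ⟨⋃₀ c, ⟨Set.sUnion_subset (fun s hs => (hc hs).1),
      (Set.pairwise_sUnion hch.directedOn).2 (fun s hs => (hc hs).2)⟩,
      fun s hs => Set.subset_sUnion_of_mem hs⟩)
  refine ⟨T, hT.prop.1, hT.prop.2, fun a ha h => ?_⟩
  have : insert a T ⊆ T := hT.le_of_ge ⟨Set.insert_subset ha hT.prop.1, ?_⟩ (Set.subset_insert a T)
  · exact this (Set.mem_insert a T)
  · rintro x (rfl | hx) y (rfl | hy) hxy
    · exact absurd rfl hxy
    · exact h y hy
    · exact hR _ _ (h x hx)
    · exact hT.prop.2 hx hy hxy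

theorem star_eq_zero' {a b : Op H} (h : a * star b = 0) : b * star a = 0 := by
  simpa using congrArg star h

theorem star_eq_zero'' {a b : Op H} (h : star a * b = 0) : star b * a = 0 := by
  simpa using congrArg star h

theorem pr_mul_star {T : Set (Op H)} {s : Op H} (hs : s ∈ T) (h : PI s) :
    pr (Set.range fun i : T => star i.1 * i.1) * star s = star s := by
  have h1 := pr_mul (A := Set.range fun i : T => star i.1 * i.1) ⟨⟨s, hs⟩, rfl⟩
  have h2 : star s * s * star s = star s := by simpa only [PI, star_star] using h.star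
  conv_lhs => rw [← h2]
  rw [← mul_assoc, h1, h2]

theorem pr_mul_self {T : Set (Op H)} {s : Op H} (hs : s ∈ T) (h : PI s) :
    pr (Set.range fun i : T => i.1 * star i.1) * s = s := by
  have h1 := pr_mul (A := Set.range fun i : T => i.1 * star i.1) ⟨⟨s, hs⟩, rfl⟩
  conv_lhs => rw [← h]
  rw [← mul_assoc, h1, h]

/-- Comparison of projections in a factor. -/
theorem comparison {N : VonNeumannAlgebra H} (hN : Fac N) {p q : Op H} (hpN : p ∈ N)
    (hqN : q ∈ N) (hp : IsStarProjection p) (hq : IsStarProjection q) :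
    ∃ w ∈ N, q * w = w ∧ w * p = w ∧ (star w * w = p ∨ w * star w = q) := by
  obtain ⟨T, hTA, hTR, hmax⟩ := exists_maximal_family
    {t : Op H | t ∈ N ∧ t ≠ 0 ∧ PI t ∧ q * t = t ∧ t * p = t}
    (fun a b => star a * b = 0 ∧ a * star b = 0)
    (fun a b h => ⟨star_eq_zero'' h.1, star_eq_zero' h.2⟩)
  obtain ⟨W, hWN, hW1, hW2, -⟩ := exists_sum N (fun i : T => i.1) (fun i => (hTA i.2).1)
    (fun i => (hTA i.2).2.2.1) (fun i j hij => (hTR i.2 j.2 (Subtype.coe_ne_coe.2 hij)).1)
    (fun i j hij => (hTR i.2 j.2 (Subtype.coe_ne_coe.2 hij)).2)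
  set P := pr (Set.range fun i : T => star i.1 * i.1) with hP
  set Q := pr (Set.range fun i : T => i.1 * star i.1) with hQ
  have hPp : IsStarProjection P := pr_proj _
  have hQp : IsStarProjection Q := pr_proj _
  have hWpi : PI W := PI.of_proj (hW1 ▸ hPp)
  have hpP : p * P = P := by
    have := mul_pr_eq (A := Set.range fun i : T => star i.1 * i.1) (X := p) (Y := 1) (by
      rintro _ ⟨i, rfl⟩
      have h := congrArg star (hTA i.2).2.2.2.2
      rw [star_mul, hp.isSelfAdjoint.star_eq] at h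
      rw [← mul_assoc, h, one_mul])
    rwa [one_mul] at this
  have hqQ : q * Q = Q := by
    have := mul_pr_eq (A := Set.range fun i : T => i.1 * star i.1) (X := q) (Y := 1) (by
      rintro _ ⟨i, rfl⟩
      rw [← mul_assoc, (hTA i.2).2.2.2.1, one_mul])
    rwa [one_mul] at this
  have hPp' : P * p = P := by
    have := congrArg star hpP
    rwa [star_mul, hp.isSelfAdjoint.star_eq, hPp.isSelfAdjoint.star_eq] at this
  have hQq' : Q * q = Q := by
    have := congrArg star hqQ
    rwa [star_mul, hq.isSelfAdjoint.star_eq, hQp.isSelfAdjoint.star_eq] at this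
  refine ⟨W, hWN, ?_, ?_, ?_⟩
  · conv_lhs => rw [← hWpi]
    rw [hW2, ← mul_assoc, hqQ, ← hW2, hWpi]
  · conv_lhs => rw [← hWpi]
    rw [mul_assoc W, hW1, mul_assoc, hPp', ← hW1, ← mul_assoc, hWpi]
  by_contra hcon
  rw [not_or, hW1, hW2] at hcon
  have hp' := hPp.sub_of_mul_eq_right hp hpP
  have hq' := hQp.sub_of_mul_eq_right hq hqQ
  obtain ⟨t, htN, ht0, htpi, hqt, htp⟩ := exists_link hN (sub_mem hpN (hW1 ▸
    mul_mem (star_mem hWN) hWN)) (sub_mem hqN (hW2 ▸ mul_mem hWN (star_mem hWN))) hp' hq'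
    (sub_ne_zero.2 (Ne.symm hcon.1)) (sub_ne_zero.2 (Ne.symm hcon.2))
  have hR : ∀ b ∈ T, star t * b = 0 ∧ t * star b = 0 := by
    intro b hb
    have hbA := hTA hb
    constructor
    · have h := congrArg star hqt
      rw [star_mul, hq'.isSelfAdjoint.star_eq] at h
      rw [← h, mul_assoc, sub_mul, hbA.2.2.2.1, pr_mul_self hb hbA.2.2.1, sub_self, mul_zero]
    · have h := congrArg star hbA.2.2.2.2
      rw [star_mul, hp.isSelfAdjoint.star_eq] at h
      rw [← htp, mul_assoc, sub_mul, h, pr_mul_star hb hbA.2.2.1, sub_self, mul_zero]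
  have htT : t ∈ T := hmax t ⟨htN, ht0, htpi, by
    rw [← hqt, ← mul_assoc, mul_sub, hq.isIdempotentElem.eq, hqQ], by
    rw [← htp, mul_assoc, sub_mul, hp.isIdempotentElem.eq, hPp']⟩ hR
  exact ht0 (by rw [← htpi, (hR t htT).2, zero_mul])

/-- A partition of the unit by projections subequivalent to `r`. -/
theorem exists_partition {N : VonNeumannAlgebra H} (hN : Fac N) {r : Op H} (hrN : r ∈ N)
    (hr : IsStarProjection r) (hr0 : r ≠ 0) :
    ∃ T : Set (Op H), (∀ t ∈ T, t ∈ N ∧ t ≠ 0 ∧ PI t ∧ r * t = t) ∧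
      T.Pairwise (fun a b => a * star b = 0) ∧
      pr (Set.range fun i : T => star i.1 * i.1) = 1 := by
  obtain ⟨T, hTA, hTR, hmax⟩ := exists_maximal_family
    {t : Op H | t ∈ N ∧ t ≠ 0 ∧ PI t ∧ r * t = t} (fun a b => a * star b = 0)
    (fun a b h => star_eq_zero' h)
  refine ⟨T, hTA, hTR, ?_⟩
  set P := pr (Set.range fun i : T => star i.1 * i.1) with hP
  have hPp : IsStarProjection P := pr_proj _
  have hPN : P ∈ N := pr_mem_of_subset N (by
    rintro _ ⟨i, rfl⟩
    exact mul_mem (star_mem (hTA i.2).1) (hTA i.2).1)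
  by_contra hcon
  obtain ⟨t, htN, ht0, htpi, hqt, htp⟩ := exists_link hN (sub_mem (one_mem N) hPN) hrN
    hPp.one_sub hr (sub_ne_zero.2 (Ne.symm hcon)) hr0
  have hR : ∀ b ∈ T, t * star b = 0 := by
    intro b hb
    rw [← htp, mul_assoc, sub_mul, one_mul, pr_mul_star hb (hTA hb).2.2.1, sub_self, mul_zero]
  have htT : t ∈ T := hmax t ⟨htN, ht0, htpi, hqt⟩ hR
  exact ht0 (by rw [← htpi, hR t htT, zero_mul])

theorem countable_family [TopologicalSpace.SeparableSpace H] {T : Set (Op H)}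
    (h0 : ∀ t ∈ T, t ≠ 0) (hT : T.Pairwise (fun a b => a * star b = 0)) : Countable T := by
  have hex : ∀ t : T, ∃ η : H, ‖star t.1 η‖ = 1 := by
    intro t
    obtain ⟨η, hη⟩ : ∃ η : H, star t.1 η ≠ 0 := by
      by_contra hcon
      push Not at hcon
      exact h0 t.1 t.2 (star_eq_zero.1 (ContinuousLinearMap.ext hcon))
    refine ⟨((‖star t.1 η‖⁻¹ : ℝ) : ℂ) • η, ?_⟩
    rw [map_smul, norm_smul, Complex.norm_real, norm_inv, norm_norm,
      inv_mul_cancel₀ (norm_ne_zero_iff.2 hη)]
  choose η hη using hex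
  refine Pairwise.countable_of_isOpen_disjoint
    (s := fun t : T => Metric.ball (star t.1 (η t)) (1 / 2)) (fun a b hab => ?_)
    (fun _ => Metric.isOpen_ball) (fun _ => Metric.nonempty_ball.2 (by norm_num))
  refine Metric.ball_disjoint_ball ?_
  have h1 : ⟪star a.1 (η a), star b.1 (η b)⟫_ℂ = 0 := by
    rw [ContinuousLinearMap.star_eq_adjoint, ContinuousLinearMap.adjoint_inner_left]
    have := congrArg (fun X : Op H => X (η b)) (hT a.2 b.2 (Subtype.coe_ne_coe.2 hab))
    change a.1 (star b.1 (η b)) = 0 at this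
    rw [this, inner_zero_right]
  have h2 := norm_sub_sq (𝕜 := ℂ) (star a.1 (η a)) (star b.1 (η b))
  rw [h1, hη, hη, ← dist_eq_norm] at h2
  have h3 : dist (star a.1 (η a)) (star b.1 (η b)) ^ 2 = 2 := by rw [h2]; simp; norm_num
  nlinarith [dist_nonneg (x := star a.1 (η a)) (y := star b.1 (η b))]

/-- Isometries with orthogonal ranges. -/
theorem exists_isometries [TopologicalSpace.SeparableSpace H] {N : VonNeumannAlgebra H}
    (hN : Fac N) {r : Op H} (hrN : r ∈ N) (hr : IsStarProjection r) (hr0 : r ≠ 0)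
    (w : ℕ → Op H) (hwN : ∀ k, w k ∈ N) (hw1 : ∀ k, star (w k) * w k = r)
    (hw2 : ∀ k l, k ≠ l → star (w k) * w l = 0) :
    ∃ v : ℕ → Op H, (∀ k, v k ∈ N) ∧ (∀ k, star (v k) * v k = 1) ∧
      ∀ k l, k ≠ l → star (v k) * v l = 0 := by
  obtain ⟨T, hTA, hTR, hP⟩ := exists_partition hN hrN hr hr0
  have := countable_family (fun t ht => (hTA t ht).2.1) hTR
  obtain ⟨n, hn⟩ := exists_injective_nat T
  let s : ℕ → T → Op H := fun k t => w (Nat.pair k (n t)) * t.1
  have hs1 : ∀ k t, star (s k t) * s k t = star t.1 * t.1 := fun k t => by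
    simp only [s, star_mul]
    rw [mul_assoc, ← mul_assoc (star (w _)), hw1, (hTA t.1 t.2).2.2.2]
  have hs2 : ∀ k l t t', (k, t) ≠ (l, t') → star (s k t) * s l t' = 0 := fun k l t t' h => by
    simp only [s, star_mul]
    rw [mul_assoc, ← mul_assoc (star (w _)), hw2 _ _ (fun he => h ?_), zero_mul, mul_zero]
    rw [Nat.pair_eq_pair] at he
    exact Prod.ext he.1 (hn he.2)
  have hex := fun k => exists_sum N (s k) (fun t => mul_mem (hwN _) (hTA t.1 t.2).1)
    (fun t => PI.of_proj (by rw [hs1]; exact (hTA t.1 t.2).2.2.1.proj))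
    (fun t t' h => hs2 k k t t' (fun he => h (Prod.ext_iff.1 he).2))
    (fun t t' h => by
      simp only [s, star_mul]
      rw [mul_assoc, ← mul_assoc t.1, hTR t.2 t'.2 (Subtype.coe_ne_coe.2 h), zero_mul, mul_zero])
  choose v hvN hv1 _ hv3 using hex
  simp only [hs1] at hv1 hv3
  refine ⟨v, hvN, fun k => by rw [hv1, hP], fun k l hkl => ?_⟩
  have dens : ∀ X : Op H, (∀ t : T, X * (star t.1 * t.1) = 0) → X = 0 := fun X hX => by
    have := mul_pr_eq_zero (A := Set.range fun i : T => star i.1 * i.1) (X := X) (by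
      rintro _ ⟨i, rfl⟩
      exact hX i)
    rwa [hP, mul_one] at this
  refine dens _ (fun t' => ?_)
  rw [mul_assoc, hv3]
  refine star_eq_zero'' (dens _ (fun t => ?_))
  rw [mul_assoc, hv3]
  exact hs2 l k t' t (fun he => hkl (Prod.ext_iff.1 he).1.symm)

end Pool.Agent.P.MP_7e3bdd_an.Dx
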