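import Pool.Agent.P.MP_7e3bdd_an.Dx.Nrm

/-!
The properly infinite case: averaging along isometries with orthogonal ranges.
-/

set_option autoImplicit false

open scoped InnerProductSpace Topology ComplexConjugate
open Filter

noncomputable section

namespace Pool.Agent.P.MP_7e3bdd_an.Dx

attribute [local instance] tau

variable {H : Type} [NormedAddCommGroup H] [InnerProductSpace ℂ H] [CompleteSpace H]
variable {N : VonNeumannAlgebra H}

theorem proj_sum {ι : Type} (F : Finset ι) (q : ι → Op H) (hq : ∀ i ∈ F, IsStarProjection (q i))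
    (ho : ∀ i ∈ F, ∀ j ∈ F, i ≠ j → q i * q j = 0) : IsStarProjection (∑ i ∈ F, q i) := by
  classical
  induction F using Finset.induction_on with
  | empty => simp
  | insert a s ha ih =>
    rw [Finset.sum_insert ha]
    refine (hq a (Finset.mem_insert_self a s)).add
      (ih (fun i hi => hq i (Finset.mem_insert_of_mem hi)) (fun i hi j hj =>
        ho i (Finset.mem_insert_of_mem hi) j (Finset.mem_insert_of_mem hj))) ?_
    rw [Finset.mul_sum]
    exact Finset.sum_eq_zero (fun j hj => ho a (Finset.mem_insert_self a s) j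
      (Finset.mem_insert_of_mem hj) (fun h => ha (h ▸ hj)))

/-- `G` is a group of unitaries containing the unitaries of `N` and normalising `N`. -/
structure Grp (N : VonNeumannAlgebra H) (G : Set (Op H)) : Prop where
  unit : ∀ u ∈ G, u ∈ unitary (Op H)
  mul : ∀ u ∈ G, ∀ v ∈ G, u * v ∈ G
  star : ∀ u ∈ G, star u ∈ G
  sub : ∀ u ∈ UN N, u ∈ G
  norm : ∀ g ∈ G, ∀ a ∈ N, g * a * Star.star g ∈ N

theorem SG_mono {G G' : Set (Op H)} (h : ∀ u ∈ G, u ∈ G') {Φ : Mp H} (hΦ : Φ ∈ SG G) :
    Φ ∈ SG G' :=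
  SG_ind convex_SG isClosed_SG (fun u hu => Ad_mem (h u hu)) hΦ

theorem orb_mono {G G' : Set (Op H)} (h : ∀ u ∈ G, u ∈ G') {a w : Op H} (hw : w ∈ Orb G a) :
    w ∈ Orb G' a := by
  obtain ⟨Ψ, hΨ, rfl⟩ := hw
  exact ⟨Ψ, SG_mono h hΨ, rfl⟩

theorem orb_map {G : Set (Op H)} (hmul : ∀ u ∈ G, ∀ v ∈ G, u * v ∈ G) {a w : Op H}
    (hw : w ∈ Orb G a) {Φ : Mp H} (hΦ : Φ ∈ SG G) : Φ w ∈ Orb G a := by
  obtain ⟨Ψ, hΨ, rfl⟩ := hw
  exact ⟨Φ * Ψ, mul_mem_SG hmul hΦ hΨ, rfl⟩

theorem self_mem_orb (a : Op H) : a ∈ Orb (UN N) a :=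
  ⟨_, Ad_mem (UN_one N), by rw [Ad_one]; rfl⟩

theorem norm_le_of_orb {G : Set (Op H)} (hG : ∀ u ∈ G, u ∈ unitary (Op H)) {a w : Op H}
    (hw : w ∈ Orb G a) : ‖w‖ ≤ ‖a‖ := by
  obtain ⟨Ψ, hΨ, rfl⟩ := hw
  exact norm_apply_le hG hΨ a

/-- The unitary acting as `u` on the range of the isometry `v`. -/
def tw (v u : Op H) : Op H := 1 + v * (u - 1) * star v

theorem tw_mem {v u : Op H} (hv : v ∈ N) (h : star v * v = 1) (hu : u ∈ UN N) :
    tw v u ∈ UN N := by
  have h' : ∀ x, star v * (v * x) = x := fun x => by rw [← mul_assoc, h, one_mul]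
  obtain ⟨h1, h2⟩ := Unitary.mem_iff.1 hu.1
  have h1' : ∀ x, star u * (u * x) = x := fun x => by rw [← mul_assoc, h1, one_mul]
  have h2' : ∀ x, u * (star u * x) = x := fun x => by rw [← mul_assoc, h2, one_mul]
  refine ⟨Unitary.mem_iff.2 ⟨?_, ?_⟩, add_mem (one_mem N)
    (mul_mem (mul_mem hv (sub_mem hu.2 (one_mem N))) (star_mem hv))⟩
  · simp only [tw, star_add, star_mul, star_sub, star_one, star_star, mul_add, add_mul, mul_sub,
      sub_mul, mul_one, one_mul, mul_assoc, h', h1']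
    abel
  · simp only [tw, star_add, star_mul, star_sub, star_one, star_star, mul_add, add_mul, mul_sub,
      sub_mul, mul_one, one_mul, mul_assoc, h', h2']
    abel

theorem tw_mul_self {v : Op H} (u : Op H) (h : star v * v = 1) : tw v u * v = v * u := by
  rw [tw, add_mul, mul_assoc, h, mul_one, one_mul, mul_sub, mul_one, add_sub_cancel]

theorem tw_mul_of_orth {v v' : Op H} (u : Op H) (h : star v * v' = 0) : tw v u * v' = v' := by
  rw [tw, add_mul, mul_assoc, h, mul_zero, one_mul, add_zero]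

section Iso

variable {v : ℕ → Op H} (hvN : ∀ k, v k ∈ N) (hv1 : ∀ k, star (v k) * v k = 1)
  (hv2 : ∀ k l, k ≠ l → star (v k) * v l = 0)

include hvN hv1 hv2

theorem exists_pinch (a : Op H) : ∃ a' ∈ Orb (UN N) a,
    (∀ n m, n ≠ m → star (v n) * a' * v m = 0) ∧
      ∀ n, star (v n) * a' * v n = star (v n) * a * v n := by
  have hm : (-1 : Op H) ∈ UN N := ⟨by simp [Unitary.mem_iff], neg_mem (one_mem N)⟩
  have step : ∀ k : ℕ, ∃ a' ∈ Orb (UN N) a,
      (∀ n m, n ≠ m → n < k → star (v n) * a' * v m = 0) ∧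
        ∀ n, star (v n) * a' * v n = star (v n) * a * v n := by
    intro k
    induction k with
    | zero => exact ⟨a, self_mem_orb a, fun n _ _ hn => absurd hn (Nat.not_lt_zero n),
        fun _ => rfl⟩
    | succ k ih =>
      obtain ⟨b, hb, h1, h2⟩ := ih
      have hσ := tw_mem (hvN k) (hv1 k) hm
      set σ := tw (v k) (-1) with hσdef
      have s1 : σ * v k = -v k := by rw [hσdef, tw_mul_self _ (hv1 k), mul_neg, mul_one]
      have s2 : ∀ n, n ≠ k → σ * v n = v n := fun n hn => tw_mul_of_orth _ (hv2 k n hn.symm)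
      have hc : ∀ n m, star (v n) * ((2⁻¹ : ℝ) • b + (2⁻¹ : ℝ) • Ad (star σ) b) * v m =
          (2⁻¹ : ℝ) • (star (v n) * b * v m + star (σ * v n) * b * (σ * v m)) := fun n m => by
        simp only [Ad_apply, star_star, star_mul, mul_add, add_mul, mul_smul_comm, smul_mul_assoc,
          smul_add, mul_assoc]
      have hh : ∀ X : Op H, (2⁻¹ : ℝ) • (X + X) = X := fun X => by
        rw [← two_smul ℝ, smul_smul]; norm_num
      refine ⟨(2⁻¹ : ℝ) • b + (2⁻¹ : ℝ) • Ad (star σ) b, convex_orb a hb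
        (orb_map (UN_mul N) hb (Ad_mem (UN_star N hσ))) (by norm_num) (by norm_num) (by norm_num),
        fun n m hnm hn => ?_, fun n => ?_⟩
      · rw [hc]
        rcases (Nat.lt_succ_iff.1 hn).eq_or_lt with rfl | h
        · rw [s1, s2 m hnm.symm, star_neg, neg_mul, neg_mul, add_neg_cancel, smul_zero]
        · rw [s2 n h.ne, h1 n m hnm h, zero_add]
          by_cases hmk : m = k
          · rw [hmk, s1, mul_neg, ← hmk, h1 n m hnm h, neg_zero, smul_zero]
          · rw [s2 m hmk, h1 n m hnm h, smul_zero]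
      · rw [hc]
        by_cases hnk : n = k
        · rw [hnk, s1, star_neg, neg_mul, neg_mul, mul_neg, neg_neg, hh, h2]
        · rw [s2 n hnk, hh, h2]
  choose b hb h1 h2 using step
  obtain ⟨X, hX⟩ := exists_wl (hyperfilter ℕ) b ‖a‖
    (Eventually.of_forall (fun k => norm_le_of_orb (UN_unitary N) (hb k)))
  exact ⟨X, hX.mem_orb (UN_unitary N) (Eventually.of_forall hb),
    fun n m hnm => (hX.mul_mul _ _).eq (WL.const _)
      (Nat.hyperfilter_le_atTop ((eventually_gt_atTop n).mono (fun k hk => h1 k n m hnm hk))),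
    fun n => (hX.mul_mul _ _).eq (WL.const _) (Eventually.of_forall (fun k => h2 k n))⟩

omit hvN hv1 hv2 in
theorem block_key {κ : Type} (F : Finset κ) (σ : κ → ℕ) (hσ : ∀ i ∈ F, ∀ j ∈ F, σ i = σ j → i = j)
    (s : κ → Op H) (b : Op H) (hb : ∀ n m, n ≠ m → star (v n) * b * v m = 0) :
    star (∑ j ∈ F, v (σ j) * s j) * b * ∑ j ∈ F, v (σ j) * s j =
      ∑ j ∈ F, star (s j) * (star (v (σ j)) * b * v (σ j)) * s j := by
  rw [star_sum, Finset.sum_mul, Finset.sum_mul]
  refine Finset.sum_congr rfl (fun j hj => ?_)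
  have he : ∀ l, star (v (σ j) * s j) * b * (v (σ l) * s l) =
      star (s j) * (star (v (σ j)) * b * v (σ l)) * s l := fun l => by
    simp only [star_mul, mul_assoc]
  rw [Finset.mul_sum, Finset.sum_eq_single j (fun l hl hlj => by
    rw [he, hb _ _ (fun h => hlj (hσ j hj l hl h).symm), mul_zero, zero_mul])
    (fun h => absurd hj h), he]

omit hvN in
theorem block_iso {κ : Type} (F : Finset κ) (σ : κ → ℕ) (hσ : ∀ i ∈ F, ∀ j ∈ F, σ i = σ j → i = j)
    (s : κ → Op H) (hs1 : ∑ j ∈ F, star (s j) * s j = 1) :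
    star (∑ j ∈ F, v (σ j) * s j) * ∑ j ∈ F, v (σ j) * s j = 1 := by
  have := block_key (v := v) F σ hσ s 1 (fun n m h => by rw [mul_one, hv2 n m h])
  simpa only [mul_one, hv1, hs1] using this

theorem block_mem {κ : Type} (F : Finset κ) (σ : κ → ℕ) (hσ : ∀ i ∈ F, ∀ j ∈ F, σ i = σ j → i = j)
    (s : κ → Op H) (hs : ∀ j ∈ F, s j ∈ N) (hs1 : ∑ j ∈ F, star (s j) * s j = 1) {a : Op H}
    (ha : ∀ n m, n ≠ m → star (v n) * a * v m = 0) :
    ∑ j ∈ F, star (s j) * (star (v (σ j)) * a * v (σ j)) * s j ∈ Orb (UN N) a := by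
  refine ⟨_, iso_mem (sum_mem (fun j hj => mul_mem (hvN _) (hs j hj)))
    (block_iso hv1 hv2 F σ hσ s hs1), ?_⟩
  rw [Ad_apply, star_star, block_key F σ hσ s a ha]

theorem exists_intertwiner {v' : ℕ → Op H} (hN' : ∀ k, v' k ∈ N)
    (h1 : ∀ k, star (v' k) * v' k = 1) (h2 : ∀ k l, k ≠ l → star (v' k) * v' l = 0) (k : ℕ) :
    ∃ W ∈ N, star W * W = 1 ∧ ∀ n < k, W * v' n = v n := by
  let q : Op H := ∑ n ∈ Finset.range k, v' n * star (v' n)
  have hq : IsStarProjection q := proj_sum _ _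
    (fun n _ => (PI.of_proj (by rw [h1]; exact IsStarProjection.one _)).proj')
    (fun n _ m _ h => by rw [mul_assoc, ← mul_assoc (star _), h2 n m h, zero_mul, mul_zero])
  have hqv : ∀ n < k, q * v' n = v' n := fun n hn => by
    rw [Finset.sum_mul, Finset.sum_eq_single n (fun m _ h => by rw [mul_assoc, h2 m n h, mul_zero])
      (fun h => absurd (Finset.mem_range.2 hn) h), mul_assoc, h1, mul_one]
  let s : Option ℕ → Op H := fun o => o.elim (1 - q) (fun n => star (v' n))
  refine ⟨∑ o ∈ Finset.insertNone (Finset.range k), v (o.elim k id) * s o, sum_mem ?_,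
    block_iso hv1 hv2 _ _ ?_ s ?_, fun n hn => ?_⟩
  · rintro (_ | n) _
    · exact mul_mem (hvN _) (sub_mem (one_mem N)
        (sum_mem (fun n _ => mul_mem (hN' n) (star_mem (hN' n)))))
    · exact mul_mem (hvN _) (star_mem (hN' n))
  · rintro (_ | n) hn (_ | m) hm h
    · rfl
    · have := Finset.mem_range.1 (Finset.some_mem_insertNone.1 hm)
      exact absurd h this.ne'
    · have := Finset.mem_range.1 (Finset.some_mem_insertNone.1 hn)
      exact absurd h this.ne
    · exact congrArg some h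
  · rw [Finset.sum_insertNone]
    simp only [s, Option.elim, star_star]
    rw [hq.one_sub.isSelfAdjoint.star_eq, hq.one_sub.isIdempotentElem.eq, sub_add_cancel]
  · rw [Finset.sum_insertNone]
    simp only [s, Option.elim, id]
    rw [add_mul, mul_assoc, sub_mul, one_mul, hqv n hn, sub_self, mul_zero, zero_add,
      Finset.sum_mul, Finset.sum_eq_single n (fun m _ h => by rw [mul_assoc, h2 m n h, mul_zero])
      (fun h => absurd (Finset.mem_range.2 hn) h), mul_assoc, h1, mul_one]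

theorem exists_ampl {G : Set (Op H)} (hG : Grp N G) {u : Op H} (hu : u ∈ G) :
    ∃ Φ ∈ SG G, ∀ x n, star (v n) * Φ x * v n = star u * (star (v n) * x * v n) * u := by
  obtain ⟨u1, u2⟩ := Unitary.mem_iff.1 (hG.unit u hu)
  have u1' : ∀ x, star u * (u * x) = x := fun x => by rw [← mul_assoc, u1, one_mul]
  choose W hWN hW1 hW2 using exists_intertwiner hvN hv1 hv2 (v' := fun k => u * v k * star u)
    (fun k => hG.norm u hu _ (hvN k))
    (fun k => by
      simp only [star_mul, star_star, mul_assoc, u1']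
      rw [← mul_assoc (star (v k)), hv1, one_mul, u2])
    (fun k l h => by
      simp only [star_mul, star_star, mul_assoc, u1']
      rw [← mul_assoc (star (v k)), hv2 k l h, zero_mul, mul_zero])
  obtain ⟨Φ, hΦ, hl⟩ := exists_lim hG.unit (hyperfilter ℕ)
    (fun k => Ad (star u) * Ad (star (W k))) (Eventually.of_forall (fun k =>
      mul_mem_SG hG.mul (Ad_mem (hG.star u hu)) (SG_mono hG.sub (iso_mem (hWN k) (hW1 k)))))
  refine ⟨Φ, hΦ, fun x n => ((hl x).mul_mul _ _).eq (WL.const _)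
    (Nat.hyperfilter_le_atTop ((eventually_gt_atTop n).mono (fun k hk => ?_)))⟩
  have h2 : W k * u * v n = v n * u := by
    conv_rhs => rw [← hW2 k n hk]
    simp only [mul_assoc, u1, mul_one]
  have h3 := congrArg star h2
  rw [star_mul, star_mul (v n)] at h3
  rw [Module.End.mul_apply, Ad_apply, Ad_apply, star_star, star_star]
  calc star (v n) * (star u * (star (W k) * x * W k) * u) * v n
      = (star (v n) * star (W k * u)) * x * (W k * u * v n) := by simp only [star_mul, mul_assoc]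
    _ = star u * (star (v n) * x * v n) * u := by rw [h2, h3]; simp only [mul_assoc]

/-- The averages of the compressions by the isometries. -/
def cav (v : ℕ → Op H) (k : ℕ) : Mp H :=
  ((k + 1 : ℕ) : ℝ)⁻¹ • ∑ i ∈ Finset.range (k + 1), Ad (star (v i))

omit hvN hv1 hv2 in
theorem cav_apply (k : ℕ) (x : Op H) : cav v k x =
    ((k + 1 : ℕ) : ℝ)⁻¹ • ∑ i : Fin (k + 1), star (v i) * x * v i := by
  rw [cav, LinearMap.smul_apply, LinearMap.sum_apply, Finset.sum_range]
  simp only [Ad_apply, star_star]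

omit hv2 in
theorem cav_mem (k : ℕ) : cav v k ∈ SG (UN N) :=
  avg_mem _ (fun i _ => iso_mem (hvN i) (hv1 i))

theorem block_lim {κ : Type} (F : Finset κ) (s : κ → Op H) (hs : ∀ j ∈ F, s j ∈ N)
    (hs1 : ∑ j ∈ F, star (s j) * s j = 1) {a a' b : Op H}
    (ha : ∀ n m, n ≠ m → star (v n) * a' * v m = 0)
    (ha' : ∀ n, star (v n) * a' * v n = star (v n) * a * v n)
    (hb : WL (hyperfilter ℕ : Filter ℕ) (fun k => cav v k a) b) :
    ∑ j ∈ F, star (s j) * b * s j ∈ Orb (UN N) a' := by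
  classical
  let n : κ → ℕ := fun j => if h : j ∈ F then (F.equivFin ⟨j, h⟩ : ℕ) else 0
  have hn : ∀ j ∈ F, n j < F.card := fun j hj => by
    simp only [n, dif_pos hj]
    exact (F.equivFin ⟨j, hj⟩).2
  have hinj : ∀ i ∈ F, ∀ j ∈ F, n i = n j → i = j := fun i hi j hj h => by
    simp only [n, dif_pos hi, dif_pos hj] at h
    exact congrArg Subtype.val (F.equivFin.injective (Fin.ext h))
  refine (WL.sum F (fun j _ => hb.mul_mul (star (s j)) (s j))).mem_orb (UN_unitary N)
    (Nat.hyperfilter_le_atTop ((eventually_ge_atTop F.card).mono (fun k hk => ?_)))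
  have h1 : ∀ i : Fin (k + 1), ∑ j ∈ F, star (s j) *
      (star (v (Fin.ofNat (k + 1) (n j) + i : Fin (k + 1))) * a *
        v (Fin.ofNat (k + 1) (n j) + i : Fin (k + 1))) * s j ∈ Orb (UN N) a' := fun i => by
    have := block_mem hvN hv1 hv2 F (fun j => (Fin.ofNat (k + 1) (n j) + i : Fin (k + 1)))
      (fun j hj l hl h => by
        have h2 := congrArg Fin.val (add_right_cancel (Fin.ext h))
        rw [Fin.val_ofNat, Fin.val_ofNat, Nat.mod_eq_of_lt (by have := hn j hj; omega),
          Nat.mod_eq_of_lt (by have := hn l hl; omega)] at h2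
        exact hinj j hj l hl h2) s hs hs1 ha
    simpa only [ha'] using this
  have h2 := (convex_orb (G := UN N) a').sum_mem (t := Finset.univ)
    (w := fun _ : Fin (k + 1) => ((k + 1 : ℕ) : ℝ)⁻¹) (fun _ _ => by positivity) (by
      rw [Finset.sum_const, Finset.card_univ, Fintype.card_fin, nsmul_eq_mul, mul_inv_cancel₀]
      exact_mod_cast k.succ_ne_zero) (fun i _ => h1 i)
  have h3 : ∑ j ∈ F, star (s j) * cav v k a * s j = ∑ i : Fin (k + 1), ((k + 1 : ℕ) : ℝ)⁻¹ •
      ∑ j ∈ F, star (s j) * (star (v (Fin.ofNat (k + 1) (n j) + i : Fin (k + 1))) * a *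
        v (Fin.ofNat (k + 1) (n j) + i : Fin (k + 1))) * s j := by
    rw [← Finset.smul_sum, Finset.sum_comm, Finset.smul_sum]
    refine Finset.sum_congr rfl (fun j _ => ?_)
    rw [cav_apply, mul_smul_comm, smul_mul_assoc, Finset.mul_sum, Finset.sum_mul]
    congr 1
    exact (Equiv.sum_comp (Equiv.addLeft (Fin.ofNat (k + 1) (n j)))
      (fun i : Fin (k + 1) => star (s j) * (star (v i) * a * v i) * s j)).symm
  rw [h3]
  exact h2

theorem exists_ge_of_dom {G : Set (Op H)} (hG : Grp N G) (hN : Fac N) {a b w c : Op H}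
    (hb : WL (hyperfilter ℕ : Filter ℕ) (fun k => cav v k a) b) (hw : w ∈ Orb G b)
    (hcN : c ∈ N) (hc0 : 0 ≤ c) (hc : c ≠ 0) (hcw : c ≤ w) :
    ∃ W ∈ Orb G a, ∃ ε : ℝ, 0 < ε ∧ ε • (1 : Op H) ≤ W := by
  classical
  obtain ⟨a', ha', h1, h2⟩ := exists_pinch hvN hv1 hv2 a
  obtain ⟨r, hrN, -, -, ε, hε, hr, hr0, hrc, -⟩ := spectral_cut N hcN hc0 hc
  obtain ⟨T, hTA, hTR, hP⟩ := exists_partition hN hrN hr hr0
  obtain ⟨Φ, hΦ, rfl⟩ := hw
  let g : Finset T → Op H := fun F => ∑ t ∈ F, star t.1 * t.1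
  have hg : ∀ F, IsStarProjection (g F) := fun F => proj_sum F _
    (fun t _ => (hTA t.1 t.2).2.2.1.proj) (fun t _ t' _ h => by
      rw [mul_assoc, ← mul_assoc t.1, hTR t.2 t'.2 (Subtype.coe_ne_coe.2 h), zero_mul, mul_zero])
  have hgN : ∀ F, g F ∈ N := fun F =>
    sum_mem (fun t _ => mul_mem (star_mem (hTA t.1 t.2).1) (hTA t.1 t.2).1)
  let Λ : Finset T → Op H → Op H := fun F y =>
    star (1 - g F) * y * (1 - g F) + ∑ t ∈ F, star t.1 * y * t.1
  have hΛ : ∀ F, Λ F (Φ b) ∈ Orb G a' := fun F => by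
    refine SG_ind' (fun Φ => Λ F (Φ b) ∈ Orb G a') ?_ ?_ (fun u hu => ?_) hΦ
    · intro A hA B hB s t hs ht hst
      have h3 := convex_orb a' hA hB hs ht hst
      have h4 : Λ F ((s • A + t • B) b) = s • Λ F (A b) + t • Λ F (B b) := by
        simp only [Λ, comb_apply, mul_add, add_mul, mul_smul_comm, smul_mul_assoc, smul_add,
          Finset.sum_add_distrib, ← Finset.smul_sum]
        abel
      rw [Set.mem_ofPred_eq, h4]
      exact h3
    · exact isClosed_of_wl (fun l Ψ _ hP hl => (((hl b).mul_mul _ _).add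
        (WL.sum F (fun t _ => (hl b).mul_mul (star t.1) t.1))).mem_orb hG.unit hP)
    · obtain ⟨u1, u2⟩ := Unitary.mem_iff.1 (hG.unit u hu)
      have u2' : ∀ x, u * (star u * x) = x := fun x => by rw [← mul_assoc, u2, one_mul]
      have hcj : ∀ y ∈ N, star u * y * u ∈ N := fun y hy => by
        simpa only [star_star] using hG.norm _ (hG.star u hu) y hy
      have h5 : ∀ y : Op H, star (star u * y * u) * (star u * y * u) =
          star u * (star y * y) * u := fun y => by
        simp only [star_mul, star_star, mul_assoc, u2']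
      have h6 := block_lim hvN hv1 hv2 (Finset.insertNone F)
        (fun o => star u * o.elim (1 - g F) (fun t => t.1) * u) (by
          rintro (_ | t) _
          · exact hcj _ (sub_mem (one_mem N) (hgN F))
          · exact hcj _ (hTA t.1 t.2).1) (by
          simp only [h5]
          rw [← Finset.sum_mul, ← Finset.mul_sum, Finset.sum_insertNone]
          simp only [Option.elim]
          rw [(hg F).one_sub.isSelfAdjoint.star_eq, (hg F).one_sub.isIdempotentElem.eq,
            sub_add_cancel, mul_one, u1]) h1 h2 hb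
      have h7 := orb_map hG.mul (orb_mono hG.sub h6) (Ad_mem hu)
      rw [Finset.sum_insertNone, map_add, map_sum] at h7
      simpa only [Λ, Option.elim, star_mul, star_star, Ad_apply, mul_assoc, u2', u2, mul_one]
        using h7
  have hge : ∀ F, ((ε : ℝ) : ℂ) • g F ≤ Λ F (Φ b) := fun F => by
    refine le_add_of_nonneg_of_le (star_left_conjugate_nonneg (hc0.trans hcw) _) ?_
    rw [Finset.smul_sum]
    refine Finset.sum_le_sum (fun t _ => ?_)
    refine le_of_eq_of_le ?_ (star_left_conjugate_le_conjugate (hrc.trans hcw) t.1)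
    rw [mul_smul_comm, smul_mul_assoc, mul_assoc, (hTA t.1 t.2).2.2.2, Complex.coe_smul]
  obtain ⟨W, hW⟩ := exists_wl (UF T) (fun F => Λ F (Φ b)) ‖a'‖
    (Eventually.of_forall (fun F => norm_le_of_orb hG.unit (hΛ F)))
  obtain ⟨X, hX⟩ := exists_wl (UF T) g 1
    (Eventually.of_forall (fun F => IsStarProjection.norm_le _ (hg F)))
  have hX1 : X = 1 := by
    have := mul_pr_eq (A := Set.range fun i : T => star i.1 * i.1) (X := X) (Y := 1) (by
      rintro _ ⟨i, rfl⟩
      refine (hX.mul_right _).eq (WL.const _) ((UF_mem i).mono (fun F hF => ?_))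
      rw [Finset.sum_mul, Finset.sum_eq_single i (fun j _ hj => by
        rw [mul_assoc, ← mul_assoc j.1, hTR j.2 i.2 (Subtype.coe_ne_coe.2 hj), zero_mul, mul_zero])
        (fun h => absurd hF h), one_mul]
      exact (hTA i.1 i.2).2.2.1.proj.isIdempotentElem.eq)
    rwa [hP, mul_one, mul_one] at this
  obtain ⟨Ψ, hΨ, hΨW⟩ := hW.mem_orb hG.unit (Eventually.of_forall hΛ)
  refine ⟨W, hΨW ▸ orb_map hG.mul (orb_mono hG.sub ha') hΨ, ε, hε, ?_⟩
  have := (hX.smul (ε : ℂ)).le hW (Eventually.of_forall hge)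
  rwa [hX1, Complex.coe_smul] at this

end Iso

end Pool.Agent.P.MP_7e3bdd_an.Dx
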