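import Pool.Agent.P.MP_7e3bdd_an.Dx.Props
import Pool.Agent.P.MP_7e3bdd_an.Dx.Fam

/-!
Compressions by isometries of `N` belong to the semigroup generated by the unitaries of `N`.
-/

set_option autoImplicit false

open scoped InnerProductSpace Topology ComplexConjugate
open Filter

noncomputable section

namespace Pool.Agent.P.MP_7e3bdd_an.Dx

variable {H : Type} [NormedAddCommGroup H] [InnerProductSpace ℂ H] [CompleteSpace H]

/-- The unitary group of `N`. -/
def UN (N : VonNeumannAlgebra H) : Set (Op H) := {u | u ∈ unitary (Op H) ∧ u ∈ N}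

theorem UN_unitary (N : VonNeumannAlgebra H) : ∀ u ∈ UN N, u ∈ unitary (Op H) := fun _ h => h.1

theorem UN_mem (N : VonNeumannAlgebra H) : ∀ u ∈ UN N, u ∈ N := fun _ h => h.2

theorem UN_one (N : VonNeumannAlgebra H) : (1 : Op H) ∈ UN N := ⟨one_mem _, one_mem _⟩

theorem UN_mul (N : VonNeumannAlgebra H) : ∀ u ∈ UN N, ∀ v ∈ UN N, u * v ∈ UN N :=
  fun _ hu _ hv => ⟨mul_mem hu.1 hv.1, mul_mem hu.2 hv.2⟩

theorem UN_star (N : VonNeumannAlgebra H) {u : Op H} (hu : u ∈ UN N) : star u ∈ UN N :=
  ⟨Unitary.star_mem hu.1, star_mem hu.2⟩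

section Alg

variable {R : Type} [Ring R]

/-- The swap of the first two wandering projections. -/
def swp (V W : R) : R := V * (1 - V * W) + (1 - V * W) * W + V * V * W * W

/-- The cyclic permutations of the wandering projections. -/
def cyc (V W : R) : ℕ → R
  | 0 => 1
  | k + 1 => swp V W * (V * cyc V W k * W + (1 - V * W))

variable {V W : R}

theorem swp_sq (h : W * V = 1) : swp V W * swp V W = 1 := by
  have h' : ∀ x, W * (V * x) = x := fun x => by rw [← mul_assoc, h, one_mul]
  simp only [swp, mul_add, add_mul, mul_sub, sub_mul, mul_one, one_mul, mul_assoc, h, h']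
  abel

theorem cyc_fix {Q : R} (hW : W * Q = Q * W)
    (hQ : V * (W * Q) = Q) (k : ℕ) : cyc V W k * Q = Q := by
  have h1 : V * (Q * W) = Q := by rw [← hW, hQ]
  have h2 : V * (W * (W * Q)) = W * Q := by rw [hW, ← mul_assoc W, ← mul_assoc, hQ]
  induction k with
  | zero => exact one_mul Q
  | succ k ih =>
    have h3 : (V * cyc V W k * W + (1 - V * W)) * Q = Q := by
      rw [add_mul, mul_assoc, hW, mul_assoc, ← mul_assoc (cyc V W k), ih, h1, sub_mul, one_mul,
        mul_assoc, hQ, sub_self, add_zero]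
    rw [cyc, mul_assoc, h3]
    simp only [swp, add_mul, mul_sub, sub_mul, mul_one, one_mul, mul_assoc, hQ, h2]
    abel

theorem cyc_shift (h : W * V = 1) (j : ℕ) : ∀ k, j < k →
    cyc V W k * (V ^ j * (1 - V * W)) = V * (V ^ j * (1 - V * W)) := by
  have h' : ∀ x, W * (V * x) = x := fun x => by rw [← mul_assoc, h, one_mul]
  induction j with
  | zero =>
    intro k hk
    obtain ⟨k, rfl⟩ := Nat.exists_eq_succ_of_ne_zero hk.ne'
    simp only [cyc, swp, pow_zero, mul_add, add_mul, mul_sub, sub_mul, mul_one, one_mul, mul_assoc,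
      h']
    abel
  | succ j ih =>
    intro k hk
    obtain ⟨k, rfl⟩ := Nat.exists_eq_succ_of_ne_zero (Nat.ne_zero_of_lt hk)
    have h1 := ih k (by omega)
    rw [pow_succ', mul_assoc V]
    generalize V ^ j * (1 - V * W) = y at h1 ⊢
    simp only [cyc, swp, mul_add, add_mul, mul_sub, sub_mul, mul_one, one_mul, mul_assoc, h', h1]
    abel

end Alg

theorem cyc_mem {N : VonNeumannAlgebra H} {V : Op H} (hVN : V ∈ N) (h : star V * V = 1) (k : ℕ) :
    cyc V (star V) k ∈ UN N := by
  have h' : ∀ x, star V * (V * x) = x := fun x => by rw [← mul_assoc, h, one_mul]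
  have hW : star V ∈ N := star_mem hVN
  have hp : 1 - V * star V ∈ N := sub_mem (one_mem N) (mul_mem hVN hW)
  have hs : swp V (star V) ∈ UN N := by
    have h1 : star (swp V (star V)) = swp V (star V) := by
      simp only [swp, star_add, star_mul, star_sub, star_one, star_star, mul_assoc]
      abel
    exact ⟨Unitary.mem_iff.2 ⟨by rw [h1, swp_sq h], by rw [h1, swp_sq h]⟩,
      add_mem (add_mem (mul_mem hVN hp) (mul_mem hp hW))
        (mul_mem (mul_mem (mul_mem hVN hVN) hW) hW)⟩
  induction k with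
  | zero => exact UN_one N
  | succ k ih =>
    refine UN_mul N _ hs _ ⟨?_, add_mem (mul_mem (mul_mem hVN ih.2) hW) hp⟩
    obtain ⟨h1, h2⟩ := Unitary.mem_iff.1 ih.1
    generalize cyc V (star V) k = c at h1 h2
    have h1' : ∀ x, star c * (c * x) = x := fun x => by rw [← mul_assoc, h1, one_mul]
    have h2' : ∀ x, c * (star c * x) = x := fun x => by rw [← mul_assoc, h2, one_mul]
    refine Unitary.mem_iff.2 ⟨?_, ?_⟩
    · simp only [star_add, star_mul, star_sub, star_one, star_star, mul_add, add_mul, mul_sub,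
        sub_mul, mul_one, one_mul, mul_assoc, h', h1']
      abel
    · simp only [star_add, star_mul, star_sub, star_one, star_star, mul_add, add_mul, mul_sub,
        sub_mul, mul_one, one_mul, mul_assoc, h', h2']
      abel

theorem exists_unitary_wl {N : VonNeumannAlgebra H} {V : Op H} (hVN : V ∈ N)
    (h : star V * V = 1) :
    ∃ u : ℕ → Op H, (∀ k, u k ∈ UN N) ∧ WL (hyperfilter ℕ : Filter ℕ) u V := by
  have h' : ∀ x, star V * (V * x) = x := fun x => by rw [← mul_assoc, h, one_mul]
  have hW : star V ∈ N := star_mem hVN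
  have hp : 1 - V * star V ∈ N := sub_mem (one_mem N) (mul_mem hVN hW)
  let A : Set (Op H) := Set.range fun j : ℕ => V ^ j * (1 - V * star V)
  set P := pr A with hP
  have hPp : IsStarProjection P := pr_proj _
  have hPN : P ∈ N := pr_mem_of_subset N (by
    rintro _ ⟨j, rfl⟩
    exact mul_mem (pow_mem hVN j) hp)
  have hPA : ∀ j : ℕ, P * (V ^ j * (1 - V * star V)) = V ^ j * (1 - V * star V) :=
    fun j => pr_mul (A := A) ⟨j, rfl⟩
  have e1 : P * V * P = V * P := mul_pr_eq (by
    rintro _ ⟨j, rfl⟩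
    have := hPA (j + 1)
    rw [pow_succ', mul_assoc] at this
    rw [mul_assoc, this])
  have e2 : P * star V * P = star V * P := mul_pr_eq (by
    rintro _ ⟨j, rfl⟩
    rcases j with _ | j
    · simp only [pow_zero, one_mul, mul_sub, mul_one, mul_assoc, h', sub_self]
    · simp only [pow_succ', mul_assoc, h', hPA])
  have e3 : P * V = V * P := by
    have := congrArg star e2
    simp only [star_mul, star_star, hPp.isSelfAdjoint.star_eq, ← mul_assoc] at this
    rw [← this, e1]
  have e4 : star V * P = P * star V := by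
    have := congrArg star e3
    simpa only [star_mul, hPp.isSelfAdjoint.star_eq] using this
  have e5 : P * (1 - V * star V) = 1 - V * star V := by simpa using hPA 0
  have e6 : (1 - V * star V) * P = 1 - V * star V := by
    have := congrArg star e5
    simpa only [star_mul, star_sub, star_one, star_star, hPp.isSelfAdjoint.star_eq] using this
  have hPP : P * P = P := hPp.isIdempotentElem.eq
  have q1 : V * (1 - P) = (1 - P) * V := by rw [mul_sub, sub_mul, e3, mul_one, one_mul]
  have q2 : star V * (1 - P) = (1 - P) * star V := by rw [mul_sub, sub_mul, e4, mul_one, one_mul]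
  have q3 : V * (star V * (1 - P)) = 1 - P := by
    rw [← mul_assoc, ← sub_eq_zero, ← neg_eq_zero, neg_sub]
    conv_lhs => enter [1]; rw [← one_mul (1 - P)]
    rw [← sub_mul, mul_sub, mul_one, e6, sub_self]
  have hd : V * (1 - P) + P ∈ UN N := by
    refine ⟨Unitary.mem_iff.2 ⟨?_, ?_⟩, add_mem (mul_mem hVN (sub_mem (one_mem N) hPN)) hPN⟩
    · rw [star_add, star_mul, hPp.one_sub.isSelfAdjoint.star_eq, hPp.isSelfAdjoint.star_eq,
        add_mul, mul_add, mul_add, mul_assoc, h', hPp.one_sub.isIdempotentElem.eq, mul_assoc, e4,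
        ← mul_assoc, hPp.one_sub_mul_self, zero_mul, q1, ← mul_assoc, hPp.mul_one_sub_self,
        zero_mul, hPP]
      abel
    · rw [star_add, star_mul, hPp.one_sub.isSelfAdjoint.star_eq, hPp.isSelfAdjoint.star_eq,
        add_mul, mul_add, mul_add, mul_assoc, ← mul_assoc (1 - P), hPp.one_sub.isIdempotentElem.eq,
        ← q2, q3, mul_assoc, hPp.one_sub_mul_self, mul_zero, q2, ← mul_assoc,
        hPp.mul_one_sub_self, zero_mul, hPP]
      abel
  let u : ℕ → Op H := fun k => cyc V (star V) k * (V * (1 - P) + P)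
  have hu : ∀ k, u k ∈ UN N := fun k => UN_mul N _ (cyc_mem hVN h k) _ hd
  obtain ⟨X, hX⟩ := exists_wl (hyperfilter ℕ) u 1 (Eventually.of_forall (fun k => by
    have := CStarRing.norm_mem_unitary_mul (1 : Op H) (hu k).1
    rw [mul_one] at this
    rw [this]
    exact ContinuousLinearMap.norm_id_le))
  refine ⟨u, hu, ?_⟩
  have x1 : X * (1 - P) = V * (1 - P) := by
    refine (hX.mul_right _).eq (WL.const _) (Eventually.of_forall (fun k => ?_))
    simp only [u]
    rw [mul_assoc, add_mul, hPp.mul_one_sub_self, add_zero, mul_assoc,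
      hPp.one_sub.isIdempotentElem.eq, q1, ← mul_assoc, cyc_fix q2 q3]
  have x2 : X * P = V * P := mul_pr_eq (by
    rintro _ ⟨j, rfl⟩
    refine (hX.mul_right _).eq (WL.const _)
      (Nat.hyperfilter_le_atTop ((eventually_gt_atTop j).mono (fun k hk => ?_)))
    simp only [u]
    rw [mul_assoc, add_mul, mul_assoc V, sub_mul, one_mul, hPA, sub_self, mul_zero, zero_add,
      cyc_shift h j k hk])
  have : X = V := by
    rw [← mul_one X, ← mul_one V, ← sub_add_cancel 1 P, mul_add, mul_add, x1, x2]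
  rwa [this] at hX

theorem iso_mem {N : VonNeumannAlgebra H} {V : Op H} (hVN : V ∈ N) (h : star V * V = 1) :
    Ad (star V) ∈ SG (UN N) := by
  obtain ⟨u, hu, hl⟩ := exists_unitary_wl hVN h
  have hV : ∀ ξ, ‖V ξ‖ = ‖ξ‖ := (ContinuousLinearMap.norm_map_iff_adjoint_comp_self V).2 h
  have hs : ∀ ξ, Tendsto (fun k => u k ξ) (hyperfilter ℕ : Filter ℕ) (𝓝 (V ξ)) := by
    intro ξ
    rw [tendsto_iff_norm_sub_tendsto_zero]
    have h1 : ∀ k, ‖V ξ - u k ξ‖ ^ 2 = ‖ξ‖ ^ 2 - 2 * RCLike.re ⟪V ξ, u k ξ⟫_ℂ + ‖ξ‖ ^ 2 :=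
      fun k => by
        rw [norm_sub_sq (𝕜 := ℂ), hV, ContinuousLinearMap.norm_map_of_mem_unitary (hu k).1]
    have h2 := (((RCLike.continuous_re.tendsto _).comp (hl ξ (V ξ))).const_mul 2
      |>.const_sub (‖ξ‖ ^ 2)).add_const (‖ξ‖ ^ 2)
    rw [inner_self_eq_norm_sq, hV] at h2
    have h3 : Tendsto (fun k => ‖V ξ - u k ξ‖ ^ 2) (hyperfilter ℕ : Filter ℕ) (𝓝 0) := by
      simp only [h1]
      rw [show ‖ξ‖ ^ 2 - 2 * ‖ξ‖ ^ 2 + ‖ξ‖ ^ 2 = 0 by ring] at h2
      exact h2
    have h4 := (Real.continuous_sqrt.tendsto 0).comp h3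
    simpa [Function.comp_def, norm_sub_rev] using h4
  refine mem_SG_of_wl (l := (hyperfilter ℕ : Filter ℕ)) (F := fun k => Ad (star (u k)))
    (Eventually.of_forall (fun k => Ad_mem (UN_star N (hu k)))) (fun x ξ η => ?_)
  have := (hs η).inner (𝕜 := ℂ) ((x.continuous.tendsto _).comp (hs ξ))
  simpa [ContinuousLinearMap.star_eq_adjoint, ContinuousLinearMap.adjoint_inner_right] using this

end Pool.Agent.P.MP_7e3bdd_an.Dx
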