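import Pool.Agent.Results.MP_7e3bdd_an.Dominated

/-!
Not a hand-in: a check that the case of a normal conditional expectation (recalled as known) is a
special case of the hand-in `Dominated`.
-/

set_option autoImplicit false
open scoped InnerProductSpace

namespace Pool.Agent.P.MP_7e3bdd_an.Dx

open Pool.Agent.Results.MP_7e3bdd_an.Dominated

theorem known_q2 (H : Type) [NormedAddCommGroup H] [InnerProductSpace ℂ H] [CompleteSpace H]
    [TopologicalSpace.SeparableSpace H] (N M : VonNeumannAlgebra H) (hNM : ∀ a ∈ N, a ∈ M)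
    (hirr : ∀ z ∈ M, (∀ y ∈ N, z * y = y * z) → ∃ c : ℂ, z = c • (1 : H →L[ℂ] H))
    (E : (H →L[ℂ] H) →ₗ[ℂ] (H →L[ℂ] H)) (h1 : E 1 = 1) (hpos : ∀ x ∈ M, 0 ≤ x → 0 ≤ E x)
    (hN : ∀ x ∈ M, E x ∈ N) (hb : ∀ a ∈ N, ∀ b ∈ N, ∀ x ∈ M, E (a * x * b) = a * E x * b)
    (hn : IsNormalOn M E) :
    ∀ x ∈ M, ∃ c : ℂ, ∀ (n : ℕ) (ξ η : Fin n → H) (ε : ℝ), 0 < ε →
      ∃ y ∈ convexHull ℝ
          {T : H →L[ℂ] H | ∃ u ∈ unitary (H →L[ℂ] H), u ∈ N ∧ T = u * x * star u},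
        ∀ i : Fin n, ‖⟪η i, (y - c • (1 : H →L[ℂ] H)) (ξ i)⟫_ℂ‖ < ε := by
  let G : Subgroup (unitary (H →L[ℂ] H)) :=
    { carrier := {u | u.1 ∈ N}
      mul_mem' := fun {u v} ha hb =>
        (mul_mem (show u.1 ∈ N from ha) (show v.1 ∈ N from hb) : u.1 * v.1 ∈ N)
      one_mem' := one_mem N
      inv_mem' := fun {u} ha => (star_mem (show u.1 ∈ N from ha) : star u.1 ∈ N) }
  intro x hx
  obtain ⟨c, hc⟩ := result H N M G
    ⟨fun z hz h => hirr z (hNM z hz) h, fun u hu => hu,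
      fun u hu a ha => mul_mem (mul_mem hu ha) (star_mem hu)⟩
    ⟨fun u hu => hNM _ hu, fun z hz h => hirr z hz (comm_of_unitary N (fun u hu => by
      rw [← h ⟨u, hu.1⟩ hu.2, mul_assoc, (Unitary.mem_iff.1 hu.1).2, mul_one]))⟩
    E ⟨h1, hpos, fun u hu x hx => hb _ hu _ (star_mem hu) x hx⟩ hn
    (fun y hy h0 hne => ⟨E y, fun n ξ η ε hε =>
      ⟨E y, subset_convexHull ℝ _ ⟨1, one_mem G, by simp⟩, fun i => by simpa using hε⟩,
      E y, hN y hy, hpos y hy h0, hne, le_rfl⟩) x hx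
  refine ⟨c, fun n ξ η ε hε => ?_⟩
  obtain ⟨T, hT, h⟩ := hc n ξ η ε hε
  exact ⟨T, convexHull_mono (by
    rintro _ ⟨u, hu, rfl⟩
    exact ⟨u.1, u.2, hu, rfl⟩) hT, h⟩

end Pool.Agent.P.MP_7e3bdd_an.Dx
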