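import Pool.Agent.P.MP_7e3bdd_an.Dx.Inf

/-!
The weak relative Dixmier property from a normal equivariant map with a domination property.
-/

set_option autoImplicit false

open scoped InnerProductSpace Topology ComplexConjugate
open Filter

noncomputable section

namespace Pool.Agent.P.MP_7e3bdd_an.Dx

variable {H : Type} [NormedAddCommGroup H] [InnerProductSpace ℂ H] [CompleteSpace H]
variable {N M : VonNeumannAlgebra H} {e : Mp H} {G : Set (Op H)}

theorem null_conj (hG : Grp N G) (he : e ∈ SG G) {x : Op H} (hx : Null G e x) {t : Op H}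
    (ht : t ∈ N) : Null G e (t * x * star t) := by
  refine unitary_ind N (fun t => Null G e (t * x * star t)) (fun u hu => ?_)
    (fun a b ha hb => ?_) (fun c a ha => ?_) ht
  · exact hx.orb hG.mul ⟨_, Ad_mem (hG.sub u hu), Ad_apply u x⟩
  · refine ((ha.add hb).add (ha.add hb)).of_le he (star_right_conjugate_nonneg hx.1 _) ?_
    rw [← sub_nonneg]
    refine le_of_le_of_eq (star_right_conjugate_nonneg hx.1 (a - b)) ?_
    rw [star_sub, star_add]
    noncomm_ring
  · have := ha.smul (c := ‖c‖ ^ 2) (by positivity)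
    rwa [star_smul, smul_mul_assoc, smul_mul_smul_comm, RCLike.star_def, Complex.mul_conj,
      Complex.normSq_eq_norm_sq, Complex.coe_smul]

theorem null_sum {ι : Type} (F : Finset ι) (x : ι → Op H)
    (h : ∀ i ∈ F, Null G e (x i)) : Null G e (∑ i ∈ F, x i) :=
  Finset.sum_induction _ _ (fun _ _ ha hb => ha.add hb) Null.zero h

theorem null_of_smul_le (he : e ∈ SG G) {x y : Op H} (hy : Null G e y)
    (hx : 0 ≤ x) {c : ℝ} (hc : 0 < c) (h : c • x ≤ y) : Null G e x := by
  refine (hy.smul (inv_pos.2 hc).le).of_le he hx ?_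
  have := smul_le_smul_of_nonneg_left h (inv_pos.2 hc).le
  rwa [smul_smul, inv_mul_cancel₀ hc.ne', one_smul] at this

theorem exists_equiv_seq [Nontrivial H] (hG : Grp N G) (hN : Fac N) (he : e ∈ SG G) {r : Op H}
    (hrN : r ∈ N) (hr : IsStarProjection r) (hr0 : r ≠ 0) (hnull : Null G e r) :
    ∃ w : ℕ → Op H, (∀ k, w k ∈ N) ∧ (∀ k, star (w k) * w k = r) ∧
      ∀ k l, k ≠ l → star (w k) * w l = 0 := by
  obtain ⟨T, hTA, hTR, hmax⟩ := exists_maximal_family {w : Op H | w ∈ N ∧ star w * w = r}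
    (fun a b => star a * b = 0) (fun a b h => star_eq_zero'' h)
  have hpi : ∀ w ∈ T, PI w := fun w hw => PI.of_proj ((hTA hw).2 ▸ hr)
  have hinf : T.Infinite := by
    intro hfin
    let F := hfin.toFinset
    have hF : ∀ w, w ∈ F ↔ w ∈ T := fun w => hfin.mem_toFinset
    have hq : IsStarProjection (∑ w ∈ F, w * star w) := proj_sum F _
      (fun w hw => (hpi w ((hF w).1 hw)).proj') (fun a ha b hb hab => by
        rw [mul_assoc, ← mul_assoc (star a), hTR ((hF a).1 ha) ((hF b).1 hb) hab, zero_mul,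
          mul_zero])
    have hqN : ∑ w ∈ F, w * star w ∈ N :=
      sum_mem (fun w hw => mul_mem (hTA ((hF w).1 hw)).1 (star_mem (hTA ((hF w).1 hw)).1))
    obtain ⟨w, hwN, h1, h2, h3 | h3⟩ := comparison hN hrN (sub_mem (one_mem N) hqN) hr hq.one_sub
    · have hR : ∀ b ∈ T, star w * b = 0 := by
        intro b hb
        have h4 := congrArg star h1
        rw [star_mul, hq.one_sub.isSelfAdjoint.star_eq] at h4
        have h5 : (∑ w ∈ F, w * star w) * b = b := by
          rw [Finset.sum_mul, Finset.sum_eq_single b (fun a ha hab => by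
            rw [mul_assoc, hTR ((hF a).1 ha) hb hab, mul_zero])
            (fun h => absurd ((hF b).2 hb) h), hpi b hb]
        rw [← h4, mul_assoc, sub_mul, one_mul, h5, sub_self, mul_zero]
      exact hr0 (by rw [← h3, hR w (hmax w ⟨hwN, h3⟩ hR)])
    · have a1 : Null G e (1 - ∑ w ∈ F, w * star w) := by
        have := null_conj hG he hnull hwN
        rwa [h2, h3] at this
      have a2 : Null G e (∑ w ∈ F, w * star w) := null_sum F _ (fun w hw => by
        have := null_conj hG he hnull (hTA ((hF w).1 hw)).1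
        rwa [← (hTA ((hF w).1 hw)).2, ← mul_assoc, hpi w ((hF w).1 hw)] at this)
      have := a1.add a2
      rw [sub_add_cancel] at this
      exact not_null_one hG.unit (hG.sub _ (UN_one N)) he this
  let f := hinf.natEmbedding T
  exact ⟨fun k => (f k).1, fun k => (hTA (f k).2).1, fun k => (hTA (f k).2).2,
    fun k l hkl => hTR (f k).2 (f l).2 (Subtype.coe_ne_coe.2 (f.injective.ne hkl))⟩

theorem scalar_of_sa {Φ : Mp H}
    (h : ∀ x ∈ M, IsSelfAdjoint x → ∃ c : ℂ, Φ x = c • (1 : Op H)) {x : Op H} (hx : x ∈ M) :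
    ∃ c : ℂ, Φ x = c • (1 : Op H) := by
  obtain ⟨a, ha⟩ := h (x + star x) (add_mem hx (star_mem hx)) (IsSelfAdjoint.add_star_self x)
  obtain ⟨b, hb⟩ := h (Complex.I • (x - star x))
    (M.toStarSubalgebra.smul_mem (sub_mem hx (star_mem hx)) _) (by
      rw [IsSelfAdjoint, star_smul, star_sub, star_star, RCLike.star_def, Complex.conj_I, neg_smul,
        ← smul_neg, neg_sub])
  refine ⟨2⁻¹ * (a - Complex.I * b), ?_⟩
  have : x = (2⁻¹ : ℂ) • ((x + star x) - Complex.I • (Complex.I • (x - star x))) := by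
    rw [smul_smul, Complex.I_mul_I]
    module
  rw [this, map_smul, map_sub, map_smul, ha, hb, smul_smul, ← sub_smul, smul_smul]

theorem main_weak [TopologicalSpace.SeparableSpace H] (hGr : Grp N G) (hGM : ∀ u ∈ G, u ∈ M)
    (hN : Fac N)
    (hirr' : ∀ z ∈ M, (∀ u ∈ G, u * z * star u = z) → ∃ c : ℂ, z = c • (1 : Op H))
    {E : Mp H} (hn : NormalW M E) (hE1 : E 1 = 1) (hpos : ∀ x ∈ M, 0 ≤ x → 0 ≤ E x)
    (heq : ∀ u ∈ G, ∀ x ∈ M, E (u * x * star u) = u * E x * star u)
    (hdom : ∀ y ∈ M, 0 ≤ y → E y ≠ 0 →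
      ∃ w, Hull G (E y) w ∧ ∃ b ∈ N, 0 ≤ b ∧ b ≠ 0 ∧ b ≤ w) :
    ∃ Φ ∈ SG G, ∀ x ∈ M, ∃ c : ℂ, Φ x = c • (1 : Op H) := by
  rcases subsingleton_or_nontrivial H with hH | hH
  · exact ⟨_, Ad_mem (hGr.sub _ (UN_one N)), fun x _ => ⟨0, Subsingleton.elim _ _⟩⟩
  have hG := hGr.unit
  have hone : (1 : Op H) ∈ G := hGr.sub _ (UN_one N)
  have hmul := hGr.mul
  have hf : ∀ y ∈ M, 0 ≤ y → E y = 0 → y = 0 := fun y hy h0 hE =>
    faithful hG hGM hGr.star hirr' hn hE1 hpos heq hy h0 hE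
  obtain ⟨e, he, hr⟩ := exists_rigid hG hone hmul
  have hEn : ∀ y ∈ M, Null G e y → Null G e (E y) := fun y hy h =>
    ⟨hpos y hy h.1, fun Φ hΦ => by
      rw [← E_comm hG hGM hn heq hΦ hy, ← E_comm hG hGM hn heq he (map_mem_SG M hGM hΦ hy),
        h.2 Φ hΦ, map_zero]⟩
  by_cases hA : ∃ r ∈ N, IsStarProjection r ∧ r ≠ 0 ∧ Null G e r
  · obtain ⟨r, hrN, hrp, hr0, hrn⟩ := hA
    obtain ⟨w, hw0, hw1, hw2⟩ := exists_equiv_seq hGr hN he hrN hrp hr0 hrn
    obtain ⟨v, hvN, hv1, hv2⟩ := exists_isometries hN hrN hrp hr0 w hw0 hw1 hw2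
    obtain ⟨Θ, hΘ, hl⟩ := exists_lim hG (hyperfilter ℕ) (cav v)
      (Eventually.of_forall (fun k => SG_mono hGr.sub (cav_mem hvN hv1 k)))
    refine ⟨Θ * e, mul_mem_SG hmul hΘ he, fun x hx =>
      scalar_of_sa (M := M) (fun x hx hxs => ?_) hx⟩
    have hzM : e x ∈ M := map_mem_SG M hGM he hx
    have hzs : IsSelfAdjoint (e x) := map_sa_SG he hxs
    refine hirr' (Θ (e x)) (map_mem_SG M hGM hΘ hzM) (fun u hu => ?_)
    obtain ⟨Φ, hΦ, hΦv⟩ := exists_ampl hvN hv1 hv2 hGr (hGr.star u hu)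
    have hnull := null_sq hG hmul he hr hxs hΦ
    have hdM : e x - Φ (e x) ∈ M := sub_mem hzM (map_mem_SG M hGM hΦ hzM)
    have hds : IsSelfAdjoint (e x - Φ (e x)) := hzs.sub (map_sa_SG hΦ hzs)
    set d := e x - Φ (e x) with hd
    have hyM : d * d ∈ M := mul_mem hdM hdM
    have h1 : Θ (d * d) = 0 := by
      refine hf _ (map_mem_SG M hGM hΘ hyM) (map_nonneg_SG hΘ hnull.1) ?_
      by_contra hne
      obtain ⟨w, hw, b, hbN, hb0, hbne, hbw⟩ := hdom _ (map_mem_SG M hGM hΘ hyM)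
        (map_nonneg_SG hΘ hnull.1) hne
      rw [E_comm hG hGM hn heq hΘ hyM] at hw
      obtain ⟨W, hW, ε, hε, hεW⟩ := exists_ge_of_dom hvN hv1 hv2 hGr hN
        (hl (E (d * d))) (mem_orb_of_hull hG hw) hbN hb0
        hbne hbw
      exact not_null_one hG hone he
        (null_of_smul_le he ((hEn _ hyM hnull).orb hmul hW) zero_le_one hε hεW)
    have h2 : Θ d = 0 := by
      have h3 := kadison hG hΘ hds
      rw [h1] at h3
      have h4 := le_antisymm h3 (map_sa_SG hΘ hds).mul_self_nonneg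
      nth_rewrite 1 [← (map_sa_SG hΘ hds).star_eq] at h4
      exact (CStarRing.star_mul_self_eq_zero_iff _).1 h4
    have h5 : Θ (Φ (e x)) = u * Θ (e x) * star u := by
      refine (hl _).eq ((hl (e x)).mul_mul u (star u)) (Eventually.of_forall (fun k => ?_))
      simp only [cav_apply, hΦv, star_star, mul_smul_comm, smul_mul_assoc, Finset.mul_sum,
        Finset.sum_mul]
    rw [hd, map_sub, sub_eq_zero, h5] at h2
    exact h2.symm
  · refine ⟨e, he, fun x hx => scalar_of_sa (M := M) (fun x hx hxs => ?_) hx⟩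
    have hzM : e x ∈ M := map_mem_SG M hGM he hx
    have hzs : IsSelfAdjoint (e x) := map_sa_SG he hxs
    refine hirr' (e x) hzM (fun u hu => ?_)
    have hnull := null_sq hG hmul he hr hxs (Ad_mem hu)
    have hdM : e x - Ad u (e x) ∈ M := sub_mem hzM (map_mem_SG M hGM (Ad_mem hu) hzM)
    have hds : IsSelfAdjoint (e x - Ad u (e x)) := hzs.sub (map_sa_SG (Ad_mem hu) hzs)
    set d := e x - Ad u (e x) with hd
    have hyM : d * d ∈ M := mul_mem hdM hdM
    have h1 : d * d = 0 := by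
      refine hf _ hyM hnull.1 ?_
      by_contra hne
      obtain ⟨w, hw, b, hbN, hb0, hbne, hbw⟩ := hdom _ hyM hnull.1 hne
      obtain ⟨r, hrN, -, -, ε, hε, hrp, hr0, hrb, -⟩ := spectral_cut N hbN hb0 hbne
      exact hA ⟨r, hrN, hrp, hr0, null_of_smul_le he
        ((hEn _ hyM hnull).orb hmul (mem_orb_of_hull hG hw)) hrp.nonneg hε (hrb.trans hbw)⟩
    nth_rewrite 1 [← hds.star_eq] at h1
    have h2 := (CStarRing.star_mul_self_eq_zero_iff _).1 h1
    rw [hd, sub_eq_zero, Ad_apply] at h2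
    exact h2.symm

end Pool.Agent.P.MP_7e3bdd_an.Dx
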