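import Pool.Agent.P.MP_7e3bdd_an.Dx.Iso

/-!
Normal equivariant maps: commutation with the semigroup and faithfulness.
-/

set_option autoImplicit false

open scoped InnerProductSpace Topology ComplexConjugate
open Filter

noncomputable section

namespace Pool.Agent.P.MP_7e3bdd_an.Dx

attribute [local instance] tau

variable {H : Type} [NormedAddCommGroup H] [InnerProductSpace ℂ H] [CompleteSpace H]

/-- Induction over the unitaries of `N`. -/
theorem unitary_ind (N : VonNeumannAlgebra H) (P : Op H → Prop) (hu : ∀ u ∈ UN N, P u)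
    (hadd : ∀ a b, P a → P b → P (a + b)) (hsmul : ∀ (c : ℂ) a, P a → P (c • a))
    {a : Op H} (ha : a ∈ N) : P a := by
  have : IsClosed (N.toStarSubalgebra : Set (Op H)) := isClosed_vN N
  obtain ⟨u, c, h, -⟩ := CStarAlgebra.exists_sum_four_unitary
    (⟨a, ha⟩ : N.toStarSubalgebra)
  have hU : ∀ i, ((u i : N.toStarSubalgebra) : Op H) ∈ UN N := fun i =>
    ⟨Unitary.mem_iff.2 ⟨congrArg Subtype.val (Unitary.mem_iff.1 (u i).2).1,
      congrArg Subtype.val (Unitary.mem_iff.1 (u i).2).2⟩, (u i).1.2⟩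
  have h2 := congrArg Subtype.val h
  rw [Fin.sum_univ_four] at h2
  change a = c 0 • _ + c 1 • _ + c 2 • _ + c 3 • _ at h2
  rw [h2]
  exact hadd _ _ (hadd _ _ (hadd _ _ (hsmul _ _ (hu _ (hU 0))) (hsmul _ _ (hu _ (hU 1))))
    (hsmul _ _ (hu _ (hU 2)))) (hsmul _ _ (hu _ (hU 3)))

theorem comm_of_unitary (N : VonNeumannAlgebra H) {z : Op H}
    (h : ∀ u ∈ UN N, u * z * star u = z) : ∀ y ∈ N, z * y = y * z := fun y hy =>
  unitary_ind N (fun y => z * y = y * z) (fun u hu => by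
      conv_lhs => rw [← h u hu]
      rw [mul_assoc, (Unitary.mem_iff.1 hu.1).1, mul_one])
    (fun a b ha hb => by rw [mul_add, add_mul, ha, hb])
    (fun c a ha => by rw [mul_smul_comm, smul_mul_assoc, ha]) hy

/-- Weak continuity on bounded parts of `M`. -/
def NormalW (M : VonNeumannAlgebra H) (E : Mp H) : Prop :=
  ∀ (ι : Type) (l : Filter ι) (T : ι → Op H) (x : Op H) (C : ℝ), l.NeBot →
    (∀ᶠ i in l, T i ∈ M ∧ ‖T i‖ ≤ C) → WL l T x → WL l (fun i => E (T i)) (E x)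

theorem E_comm {M : VonNeumannAlgebra H} {G : Set (Op H)} (hG : ∀ u ∈ G, u ∈ unitary (Op H))
    (hGM : ∀ u ∈ G, u ∈ M) {E : Mp H} (hn : NormalW M E)
    (heq : ∀ u ∈ G, ∀ x ∈ M, E (u * x * star u) = u * E x * star u) {Φ : Mp H} (hΦ : Φ ∈ SG G)
    {x : Op H} (hx : x ∈ M) : E (Φ x) = Φ (E x) := by
  refine (SG_ind' (fun Φ => Φ ∈ SG G ∧ E (Φ x) = Φ (E x)) ?_ ?_ (fun u hu => ?_) hΦ).2
  · intro A hA B hB a b ha hb hab
    refine ⟨convex_SG hA.1 hB.1 ha hb hab, ?_⟩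
    rw [LinearMap.add_apply, LinearMap.add_apply, rsmul_apply, rsmul_apply, rsmul_apply,
      rsmul_apply, map_add, map_smul, map_smul, hA.2, hB.2]
  · refine isClosed_of_wl (fun l Φ hl hP hw => ⟨mem_SG_of_wl (hP.mono (fun _ h => h.1)) hw, ?_⟩)
    exact (hn _ l _ _ ‖x‖ hl (hP.mono (fun Ψ h =>
      ⟨map_mem_SG M hGM h.1 hx, norm_apply_le hG h.1 x⟩)) (hw x)).eq (hw (E x))
      (hP.mono (fun _ h => h.2))
  · exact ⟨Ad_mem hu, by rw [Ad_apply, Ad_apply, heq u hu x hx]⟩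

/-- Bounded directed sets of positive operators converge weakly to their least upper bound. -/
theorem exists_lub {D : Set (Op H)} (hne : D.Nonempty) (hD : DirectedOn (· ≤ ·) D)
    (h0 : ∀ y ∈ D, 0 ≤ y) {b : Op H} (hb : ∀ y ∈ D, y ≤ b) :
    ∃ (U : Ultrafilter D) (X : Op H), (∀ y ∈ D, ∀ᶠ i in (U : Filter D), y ≤ i.1) ∧
      WL (U : Filter D) Subtype.val X ∧ IsLUB D X := by
  have : Nonempty D := hne.to_subtype
  have : IsDirectedOrder D := ⟨fun a b => by
    obtain ⟨c, hc, h1, h2⟩ := hD a.1 a.2 b.1 b.2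
    exact ⟨⟨c, hc⟩, h1, h2⟩⟩
  let U : Ultrafilter D := Ultrafilter.of atTop
  have hU : ∀ y ∈ D, ∀ᶠ i in (U : Filter D), y ≤ i.1 := fun y hy =>
    (Ultrafilter.of_le atTop) (eventually_ge_atTop (⟨y, hy⟩ : D))
  obtain ⟨X, hX⟩ := exists_wl U Subtype.val ‖b‖ (Eventually.of_forall (fun i =>
    CStarAlgebra.norm_le_norm_of_nonneg_of_le (h0 _ i.2) (hb _ i.2)))
  exact ⟨U, X, hU, hX, fun y hy => (WL.const y).le hX (hU y hy),
    fun c hc => hX.le (WL.const c) (Eventually.of_forall (fun i => hc i.2))⟩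

theorem le_proj_of_smul_le {x q : Op H} (hq : IsStarProjection q) (h0 : 0 ≤ x) (h1 : x ≤ 1)
    {c : ℝ} (hc : 0 < c) (h : c • x ≤ q) : x ≤ q := by
  have h2 : (1 - q) * x * (1 - q) = 0 := by
    have h3 := star_left_conjugate_le_conjugate h (1 - q)
    rw [hq.one_sub.isSelfAdjoint.star_eq, hq.one_sub_mul_self, zero_mul, mul_smul_comm,
      smul_mul_assoc] at h3
    have h4 := star_left_conjugate_nonneg h0 (1 - q)
    rw [hq.one_sub.isSelfAdjoint.star_eq] at h4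
    have h5 := smul_le_smul_of_nonneg_left h3 (inv_pos.2 hc).le
    rw [smul_smul, inv_mul_cancel₀ hc.ne', one_smul, smul_zero] at h5
    exact le_antisymm h5 h4
  obtain ⟨s, rfl⟩ := CStarAlgebra.nonneg_iff_eq_star_mul_self.1 h0
  have h6 : s * (1 - q) = 0 := by
    rw [← CStarRing.star_mul_self_eq_zero_iff, star_mul, hq.one_sub.isSelfAdjoint.star_eq, ← h2]
    simp only [mul_assoc]
  have h7 : s * q = s := by
    rw [mul_sub, mul_one, sub_eq_zero] at h6
    exact h6.symm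
  have h8 := star_left_conjugate_le_conjugate h1 q
  rw [mul_one, ← mul_assoc, ← star_mul, mul_assoc, h7, hq.isSelfAdjoint.star_eq,
    hq.isIdempotentElem.eq] at h8
  exact h8

/-- A normal unital positive equivariant map is faithful when the inclusion is irreducible. -/
theorem faithful [Nontrivial H] {M : VonNeumannAlgebra H} {G : Set (Op H)}
    (hG : ∀ u ∈ G, u ∈ unitary (Op H)) (hGM : ∀ u ∈ G, u ∈ M) (hGs : ∀ u ∈ G, star u ∈ G)
    (hirr : ∀ z ∈ M, (∀ u ∈ G, u * z * star u = z) → ∃ c : ℂ, z = c • (1 : Op H))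
    {E : Mp H} (hn : NormalW M E) (hE1 : E 1 = 1) (hpos : ∀ x ∈ M, 0 ≤ x → 0 ≤ E x)
    (heq : ∀ u ∈ G, ∀ x ∈ M, E (u * x * star u) = u * E x * star u)
    {y : Op H} (hy : y ∈ M) (h0 : 0 ≤ y) (hE : E y = 0) : y = 0 := by
  let L : Set (Op H) := {x | x ∈ M ∧ 0 ≤ x ∧ x ≤ 1 ∧ E x = 0}
  have hmono : ∀ a ∈ M, ∀ b ∈ M, a ≤ b → E a ≤ E b := fun a ha b hb hab => by
    rw [← sub_nonneg, ← map_sub]
    exact hpos _ (sub_mem hb ha) (sub_nonneg.2 hab)
  have hz := zorn_le_nonempty₀ L (fun c hc hch y hy => by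
    obtain ⟨U, X, -, hX, hlub⟩ := exists_lub ⟨y, hy⟩ hch.directedOn (fun z hz => (hc hz).2.1)
      (fun z hz => (hc hz).2.2.1)
    refine ⟨X, ⟨hX.mem M (Eventually.of_forall (fun i => (hc i.2).1)),
      (hc hy).2.1.trans (hlub.1 hy), hlub.2 (fun z hz => (hc hz).2.2.1), ?_⟩,
      fun z hz => hlub.1 hz⟩
    exact (hn _ _ _ _ 1 U.neBot (Eventually.of_forall (fun i => ⟨(hc i.2).1,
      (CStarAlgebra.norm_le_one_iff_of_nonneg _ (hc i.2).2.1).2 (hc i.2).2.2.1⟩)) hX).eq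
      (WL.const 0) (Eventually.of_forall (fun i => (hc i.2).2.2.2)))
  have hproj : ∀ X, Maximal (· ∈ L) X → IsStarProjection X := by
    intro X hX
    obtain ⟨hM, hX0, hX1, hXE⟩ := hX.prop
    have hs := hX0.isSelfAdjoint
    have h1 : X * X ≤ X := by
      have := CStarAlgebra.pow_antitone hX0 hX1 (show 1 ≤ 2 by norm_num)
      simpa [sq] using this
    have h2 : X ≤ X + X - X * X := by rwa [add_sub_assoc, le_add_iff_nonneg_right, sub_nonneg]
    have hM' : X + X - X * X ∈ M := sub_mem (add_mem hM hM) (mul_mem hM hM)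
    have h3 := hX.le_of_ge (y := X + X - X * X) ⟨hM', hX0.trans h2, ?_, ?_⟩ h2
    · rw [add_sub_assoc, add_le_iff_nonpos_right, sub_nonpos] at h3
      exact ⟨le_antisymm h1 h3, hs⟩
    · rw [← sub_nonneg]
      refine le_of_le_of_eq ((IsSelfAdjoint.one _).sub hs).mul_self_nonneg ?_
      noncomm_ring
    · refine le_antisymm ?_ (hpos _ hM' (hX0.trans h2))
      refine (hmono _ hM' _ (add_mem hM hM) (sub_le_self _ hs.mul_self_nonneg)).trans_eq ?_
      rw [map_add, hXE, add_zero]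
  have hconj : ∀ u ∈ G, ∀ X ∈ L, u * X * star u ∈ L := fun u hu X hX =>
    ⟨mul_mem (mul_mem (hGM u hu) hX.1) (star_mem (hGM u hu)),
      star_right_conjugate_nonneg hX.2.1 u, by
        have := star_right_conjugate_le_conjugate hX.2.2.1 u
        rwa [mul_one, (Unitary.mem_iff.1 (hG u hu)).2] at this, by
        rw [heq u hu X hX.1, hX.2.2.2, mul_zero, zero_mul]⟩
  have hle : ∀ X, Maximal (· ∈ L) X → ∀ X' ∈ L, X' ≤ X := by
    intro X hX X' hX'
    have hh : (0 : ℝ) ≤ 2⁻¹ := by norm_num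
    obtain ⟨Y, hY1, hY⟩ := hz ((2⁻¹ : ℝ) • X + (2⁻¹ : ℝ) • X') ⟨add_mem (real_smul_mem M _ hX.prop.1)
      (real_smul_mem M _ hX'.1), add_nonneg (smul_nonneg hh hX.prop.2.1) (smul_nonneg hh hX'.2.1),
      by
        refine (add_le_add (smul_le_smul_of_nonneg_left hX.prop.2.2.1 hh)
          (smul_le_smul_of_nonneg_left hX'.2.2.1 hh)).trans_eq ?_
        rw [← add_smul]; norm_num,
      by
        change E (((2⁻¹ : ℝ) : ℂ) • X + ((2⁻¹ : ℝ) : ℂ) • X') = 0
        rw [map_add, map_smul, map_smul, hX.prop.2.2.2, hX'.2.2.2, smul_zero, add_zero]⟩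
    have a1 : X ≤ Y := le_proj_of_smul_le (hproj Y hY) hX.prop.2.1 hX.prop.2.2.1
      (c := 2⁻¹) (by norm_num) ((le_add_of_nonneg_right (smul_nonneg hh hX'.2.1)).trans hY1)
    have a2 : X' ≤ Y := le_proj_of_smul_le (hproj Y hY) hX'.2.1 hX'.2.2.1
      (c := 2⁻¹) (by norm_num) ((le_add_of_nonneg_left (smul_nonneg hh hX.prop.2.1)).trans hY1)
    exact a2.trans (hX.le_of_ge hY.prop a1)
  by_contra hy0
  have hny : 0 < ‖y‖ := norm_pos_iff.2 hy0
  have hyL : ‖y‖⁻¹ • y ∈ L := ⟨real_smul_mem M _ hy, smul_nonneg (inv_pos.2 hny).le h0, by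
    rw [← CStarAlgebra.norm_le_one_iff_of_nonneg _ (smul_nonneg (inv_pos.2 hny).le h0), norm_smul,
      norm_inv, norm_norm, inv_mul_cancel₀ hny.ne'], by
    change E (((‖y‖⁻¹ : ℝ) : ℂ) • y) = 0
    rw [map_smul, hE, smul_zero]⟩
  obtain ⟨X, hyX, hX⟩ := hz _ hyL
  obtain ⟨c, hc⟩ := hirr X hX.prop.1 (fun u hu => by
    refine le_antisymm (hle X hX _ (hconj u hu X hX.prop)) ?_
    have h1 := star_right_conjugate_le_conjugate (hle X hX _ (hconj _ (hGs u hu) X hX.prop)) u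
    have h2 := (Unitary.mem_iff.1 (hG u hu)).2
    rwa [star_star, ← mul_assoc, ← mul_assoc, h2, one_mul, mul_assoc, h2, mul_one] at h1)
  have hE0 := hX.prop.2.2.2
  rw [hc, map_smul, hE1, smul_eq_zero] at hE0
  rcases hE0 with h | h
  · rw [hc, h, zero_smul] at hyX
    have := le_antisymm hyX hyL.2.1
    rw [smul_eq_zero] at this
    exact this.elim (inv_pos.2 hny).ne' hy0
  · exact one_ne_zero h

end Pool.Agent.P.MP_7e3bdd_an.Dx
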