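import Pool.Agent.P.MP_7e3bdd_an.Dx.Inf

/-!
Positive maps preserving suprema of bounded increasing families are weakly continuous on bounded
sets.
-/

set_option autoImplicit false

open scoped InnerProductSpace Topology ComplexConjugate ComplexOrder
open Filter

noncomputable section

namespace Pool.Agent.P.MP_7e3bdd_an.Dx

variable {H : Type} [NormedAddCommGroup H] [InnerProductSpace ℂ H] [CompleteSpace H]
variable {M : VonNeumannAlgebra H} {φ : Op H →ₗ[ℂ] ℂ}

theorem phi_re_mono (hpos : ∀ x ∈ M, 0 ≤ x → 0 ≤ φ x) {a b : Op H} (ha : a ∈ M) (hb : b ∈ M)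
    (h : a ≤ b) : (φ a).re ≤ (φ b).re := by
  have := (Complex.nonneg_iff.1 (hpos _ (sub_mem hb ha) (sub_nonneg.2 h))).1
  rw [map_sub, Complex.sub_re] at this
  linarith

omit [CompleteSpace H] in
theorem phi_real_smul (c : ℝ) (a : Op H) : (φ (c • a)).re = c * (φ a).re := by
  rw [← Complex.coe_smul, map_smul, smul_eq_mul, Complex.re_ofReal_mul]

theorem phi_sa (hpos : ∀ x ∈ M, 0 ≤ x → 0 ≤ φ x) {a : Op H} (ha : a ∈ M) (hs : IsSelfAdjoint a) :
    conj (φ a) = φ a := by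
  have h1 : 0 ≤ (algebraMap ℝ (Op H) ‖a‖) - a := sub_nonneg.2 hs.le_algebraMap_norm_self
  have h2 : (algebraMap ℝ (Op H) ‖a‖) ∈ M := by
    rw [Algebra.algebraMap_eq_smul_one]
    exact real_smul_mem M _ (one_mem M)
  have h3 : 0 ≤ (algebraMap ℝ (Op H) ‖a‖) := by
    rw [Algebra.algebraMap_eq_smul_one]
    exact smul_nonneg (norm_nonneg a) zero_le_one
  have h4 := (Complex.nonneg_iff.1 (hpos _ (sub_mem h2 ha) h1)).2
  have h5 := (Complex.nonneg_iff.1 (hpos _ h2 h3)).2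
  rw [map_sub, Complex.sub_im, ← h5] at h4
  rw [Complex.conj_eq_iff_im]
  linarith

theorem phi_star (hpos : ∀ x ∈ M, 0 ≤ x → 0 ≤ φ x) {a : Op H} (ha : a ∈ M) :
    conj (φ (star a)) = φ a := by
  have h1 := phi_sa hpos (add_mem ha (star_mem ha)) (IsSelfAdjoint.add_star_self a)
  have h2 := phi_sa hpos (a := Complex.I • (a - star a))
    (M.toStarSubalgebra.smul_mem (sub_mem ha (star_mem ha)) _) (by
      rw [IsSelfAdjoint, star_smul, star_sub, star_star, RCLike.star_def, Complex.conj_I, neg_smul,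
        ← smul_neg, neg_sub])
  simp only [map_add, map_smul, map_sub, smul_eq_mul, map_mul, Complex.conj_I] at h1 h2
  have h3 : -(conj (φ a) - conj (φ (star a))) = φ a - φ (star a) :=
    mul_left_cancel₀ Complex.I_ne_zero (by rw [← h2]; ring)
  linear_combination (h1 + h3) / 2

theorem phi_cs (hpos : ∀ x ∈ M, 0 ≤ x → 0 ≤ φ x) {a b : Op H} (ha : a ∈ M) (hb : b ∈ M) :
    ‖φ (star a * b)‖ ^ 2 ≤ (φ (star a * a)).re * (φ (star b * b)).re := by
  let c : PreInnerProductSpace.Core ℂ M.toStarSubalgebra :=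
    { inner := fun x y => φ (star x.1 * y.1)
      conj_inner_symm := fun x y => by
        have := phi_star hpos (mul_mem (star_mem x.2) y.2)
        rwa [star_mul, star_star] at this
      re_inner_nonneg := fun x =>
        (Complex.nonneg_iff.1 (hpos _ (mul_mem (star_mem x.2) x.2) (star_mul_self_nonneg _))).1
      add_left := fun x y z => by
        change φ (star (x.1 + y.1) * z.1) = _
        rw [star_add, add_mul, map_add]
      smul_left := fun x y r => by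
        change φ (star (r • x.1) * y.1) = _
        rw [star_smul, smul_mul_assoc, map_smul]
        rfl }
  have h := InnerProductSpace.Core.inner_mul_inner_self_le (𝕜 := ℂ) (c := c) ⟨a, ha⟩ ⟨b, hb⟩
  have h2 : ‖φ (star b * a)‖ = ‖φ (star a * b)‖ := by
    have := phi_star hpos (mul_mem (star_mem ha) hb)
    rw [star_mul, star_star] at this
    rw [← this, Complex.norm_conj]
  change ‖φ (star a * b)‖ * ‖φ (star b * a)‖ ≤ _ at h
  rw [h2, ← sq] at h
  exact h

/-- Local domination by a vector functional. -/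
theorem exists_dom (hpos : ∀ x ∈ M, 0 ≤ x → 0 ≤ φ x) {p : Op H} (hpM : p ∈ M)
    (hp : IsStarProjection p) (hp0 : p ≠ 0) : ∃ f ∈ M, IsStarProjection f ∧ f ≠ 0 ∧ f * p = f ∧
      ∃ ξ : H, ∀ x ∈ M, (φ (star (x * f) * (x * f))).re ≤ ‖x (f ξ)‖ ^ 2 := by
  let ψ : H → (Op H →ₗ[ℂ] ℂ) := fun ξ =>
    { toFun := fun x => ⟪ξ, x ξ⟫_ℂ
      map_add' := fun x y => by rw [add_apply, inner_add_right]
      map_smul' := fun c x => by rw [smul_apply, inner_smul_right]; rfl }
  have hψ : ∀ ξ x, ψ ξ x = ⟪ξ, x ξ⟫_ℂ := fun _ _ => rfl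
  have hsq : ∀ (ξ : H) (a : Op H), (ψ ξ (star a * a)).re = ‖a ξ‖ ^ 2 := fun ξ a => by
    rw [hψ, ContinuousLinearMap.star_eq_adjoint, mul_apply_eq_comp,
      ContinuousLinearMap.adjoint_inner_right, inner_self_eq_norm_sq_to_K]
    norm_cast
  obtain ⟨ξ, hξ⟩ : ∃ ξ : H, (φ p).re < (ψ ξ p).re := by
    obtain ⟨η, hη⟩ : ∃ η : H, p η ≠ 0 := by
      by_contra hcon
      push Not at hcon
      exact hp0 (ContinuousLinearMap.ext hcon)
    have hn : 0 < ‖p η‖ := norm_pos_iff.2 hη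
    refine ⟨(((|(φ p).re| + 1) / ‖p η‖ : ℝ) : ℂ) • η, ?_⟩
    have h1 := hsq ((((|(φ p).re| + 1) / ‖p η‖ : ℝ) : ℂ) • η) p
    rw [hp.isSelfAdjoint.star_eq, hp.isIdempotentElem.eq] at h1
    rw [h1, map_smul, norm_smul, Complex.norm_real, Real.norm_of_nonneg (by positivity),
      div_mul_cancel₀ _ hn.ne']
    nlinarith [le_abs_self (φ p).re, abs_nonneg (φ p).re]
  let L : Set (Op H) := {x | x ∈ M ∧ 0 ≤ x ∧ x ≤ p ∧ (ψ ξ x).re ≤ (φ x).re}
  obtain ⟨X, -, hX⟩ := zorn_le_nonempty₀ L (fun c hc hch y hy => by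
    obtain ⟨U, X, -, hX, hlub⟩ := exists_lub ⟨y, hy⟩ hch.directedOn (fun z hz => (hc hz).2.1)
      (fun z hz => (hc hz).2.2.1)
    have hXM : X ∈ M := hX.mem M (Eventually.of_forall (fun i => (hc i.2).1))
    refine ⟨X, ⟨hXM, (hc hy).2.1.trans (hlub.1 hy), hlub.2 (fun z hz => (hc hz).2.2.1), ?_⟩,
      fun z hz => hlub.1 hz⟩
    exact le_of_tendsto' ((Complex.continuous_re.tendsto _).comp (hX ξ ξ)) (fun i =>
      (hc i.2).2.2.2.trans (phi_re_mono hpos (hc i.2).1 hXM (hlub.1 i.2)))) 0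
    ⟨zero_mem M, le_rfl, hp.nonneg, by simp⟩
  obtain ⟨hXM, hX0, hXp, hXφ⟩ := hX.prop
  obtain ⟨f, hfM, -, -, c, hc, hf, hf0, hcf, -⟩ := spectral_cut M (sub_mem hpM hXM)
    (sub_nonneg.2 hXp) (fun h => by
      rw [sub_eq_zero] at h
      rw [← h] at hXφ
      exact absurd hξ (not_lt.2 hXφ))
  have hfp : f ≤ p := le_proj_of_smul_le hp hf.nonneg hf.le_one hc (hcf.trans (sub_le_self _ hX0))
  have hsmall : ∀ y ∈ M, 0 ≤ y → y ≤ c • f → (φ y).re ≤ (ψ ξ y).re := by
    intro y hy hy0 hyf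
    by_contra hcon
    have := hX.le_of_ge (y := X + y) ⟨add_mem hXM hy, add_nonneg hX0 hy0,
      le_sub_iff_add_le'.1 (hyf.trans hcf), by
        rw [map_add, map_add, Complex.add_re, Complex.add_re]
        linarith [not_le.1 hcon]⟩ (le_add_of_nonneg_right hy0)
    rw [add_le_iff_nonpos_right] at this
    rw [le_antisymm this hy0] at hcon
    simp at hcon
  refine ⟨f, hfM, hf, hf0, (hf.le_iff_mul_eq_left hp).1 hfp, ξ, fun x hx => ?_⟩
  have hxf : x * f ∈ M := mul_mem hx hfM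
  have ht : 0 < c / (‖star x * x‖ + 1) := by positivity
  have h1 := hsmall ((c / (‖star x * x‖ + 1)) • (star (x * f) * (x * f)))
    (real_smul_mem M _ (mul_mem (star_mem hxf) hxf)) (smul_nonneg ht.le (star_mul_self_nonneg _))
    (by
      have h2 := star_left_conjugate_le_conjugate
        (IsSelfAdjoint.star_mul_self x).le_algebraMap_norm_self f
      rw [Algebra.algebraMap_eq_smul_one, mul_smul_comm, smul_mul_assoc, mul_one,
        hf.isSelfAdjoint.star_eq, hf.isIdempotentElem.eq] at h2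
      have h3 : star (x * f) * (x * f) = f * (star x * x) * f := by
        rw [star_mul, hf.isSelfAdjoint.star_eq]
        simp only [mul_assoc]
      rw [h3]
      refine (smul_le_smul_of_nonneg_left h2 ht.le).trans ?_
      rw [smul_smul]
      refine smul_le_smul_of_nonneg_right ?_ hf.nonneg
      rw [div_mul_eq_mul_div, div_le_iff₀ (by positivity)]
      nlinarith [norm_nonneg (star x * x)])
  rw [phi_real_smul, phi_real_smul, hsq] at h1
  exact le_of_mul_le_mul_left h1 ht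

theorem exists_vector (hpos : ∀ x ∈ M, 0 ≤ x → 0 ≤ φ x) {f : Op H} (hfM : f ∈ M) {ξ : H}
    (h : ∀ x ∈ M, (φ (star (x * f) * (x * f))).re ≤ ‖x (f ξ)‖ ^ 2) :
    ∃ η : H, ∀ x ∈ M, φ (x * f) = ⟪η, x (f ξ)⟫_ℂ := by
  let A : M.toStarSubalgebra →ₗ[ℂ] H :=
    { toFun := fun x => x.1 (f ξ)
      map_add' := fun _ _ => rfl
      map_smul' := fun _ _ => rfl }
  let lam : M.toStarSubalgebra →ₗ[ℂ] ℂ :=
    { toFun := fun x => φ (x.1 * f)
      map_add' := fun x y => by
        change φ ((x.1 + y.1) * f) = _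
        rw [add_mul, map_add]
      map_smul' := fun c x => by
        change φ ((c • x.1) * f) = _
        rw [smul_mul_assoc, map_smul]
        rfl }
  have h1 : 0 ≤ (φ 1).re := (Complex.nonneg_iff.1 (hpos _ (one_mem M) zero_le_one)).1
  have hb : ∀ x, ‖lam x‖ ≤ Real.sqrt (φ 1).re * ‖A x‖ := fun x => by
    have h2 := phi_cs hpos (one_mem M) (mul_mem x.2 hfM)
    rw [star_one, one_mul, one_mul] at h2
    refine abs_le_of_sq_le_sq' ?_ (by positivity) |>.2
    rw [mul_pow, Real.sq_sqrt h1]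
    exact h2.trans (mul_le_mul_of_nonneg_left (h x.1 x.2) h1)
  have hker : LinearMap.ker A ≤ LinearMap.ker lam := fun x hx => by
    have := hb x
    rw [LinearMap.mem_ker.1 hx, norm_zero, mul_zero, norm_le_zero_iff] at this
    exact this
  let g₀ : LinearMap.range A →ₗ[ℂ] ℂ :=
    ((LinearMap.ker A).liftQ lam hker).comp A.quotKerEquivRange.symm.toLinearMap
  have hg₀ : ∀ x, g₀ ⟨A x, LinearMap.mem_range_self A x⟩ = lam x := fun x => by
    simp only [g₀, LinearMap.comp_apply, LinearEquiv.coe_coe,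
      LinearMap.quotKerEquivRange_symm_apply_image]
    rfl
  obtain ⟨g, hg, -⟩ := exists_extension_norm_eq (LinearMap.range A)
    (g₀.mkContinuous (Real.sqrt (φ 1).re) (by
      rintro ⟨_, x, rfl⟩
      rw [hg₀]
      exact hb x))
  refine ⟨(InnerProductSpace.toDual ℂ H).symm g, fun x hx => ?_⟩
  rw [InnerProductSpace.toDual_symm_apply]
  exact ((hg ⟨A ⟨x, hx⟩, LinearMap.mem_range_self A _⟩).trans (hg₀ ⟨x, hx⟩)).symm

theorem tendsto_of_normal (hpos : ∀ x ∈ M, 0 ≤ x → 0 ≤ φ x)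
    (hsup : ∀ (D : Set (Op H)) (x : Op H), D.Nonempty → DirectedOn (· ≤ ·) D →
      (∀ y ∈ D, y ∈ M ∧ 0 ≤ y) → IsLUB D x → ∀ ε > 0, ∃ y ∈ D, (φ x).re - ε < (φ y).re)
    {ι : Type} {l : Filter ι} {T : ι → Op H} {C : ℝ} (hT : ∀ᶠ i in l, T i ∈ M ∧ ‖T i‖ ≤ C)
    (hl : WL l T 0) : Tendsto (fun i => φ (T i)) l (𝓝 0) := by
  classical
  obtain ⟨S, hSA, hSR, hmax⟩ := exists_maximal_family
    {f : Op H | f ∈ M ∧ IsStarProjection f ∧ f ≠ 0 ∧
      ∃ ξ η : H, ∀ x ∈ M, φ (x * f) = ⟪η, x ξ⟫_ℂ} (fun a b => star a * b = 0)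
    (fun a b h => star_eq_zero'' h)
  have hSR' : ∀ a ∈ S, ∀ b ∈ S, a ≠ b → a * b = 0 := fun a ha b hb hab => by
    have : star a * b = 0 := hSR ha hb hab
    rwa [(hSA ha).2.1.isSelfAdjoint.star_eq] at this
  have hP : pr S = 1 := by
    by_contra hcon
    have hPp := pr_proj S
    obtain ⟨f, hfM, hf, hf0, hfp, ξ, hξ⟩ := exists_dom hpos
      (sub_mem (one_mem M) (pr_mem_of_subset M (fun a ha => (hSA ha).1))) hPp.one_sub
      (sub_ne_zero.2 (Ne.symm hcon))
    obtain ⟨η, hη⟩ := exists_vector hpos hfM hξ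
    have hR : ∀ b ∈ S, star f * b = 0 := fun b hb => by
      rw [hf.isSelfAdjoint.star_eq, ← hfp, mul_assoc, sub_mul, one_mul, pr_mul hb, sub_self,
        mul_zero]
    have := hR f (hmax f ⟨hfM, hf, hf0, f ξ, η, hη⟩ hR)
    rw [hf.isSelfAdjoint.star_eq, hf.isIdempotentElem.eq] at this
    exact hf0 this
  let g : Finset S → Op H := fun F => ∑ t ∈ F, t.1
  have hg : ∀ F, IsStarProjection (g F) := fun F => proj_sum F _ (fun t _ => (hSA t.2).2.1)
    (fun t _ t' _ h => hSR' _ t.2 _ t'.2 (Subtype.coe_ne_coe.2 h))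
  have hgM : ∀ F, g F ∈ M := fun F => sum_mem (fun t _ => (hSA t.2).1)
  have hmono : ∀ F F', F ⊆ F' → g F ≤ g F' := fun F F' h =>
    Finset.sum_le_sum_of_subset_of_nonneg h (fun t _ _ => (hSA t.2).2.1.nonneg)
  have hlub : IsLUB (Set.range g) 1 := by
    refine ⟨by rintro _ ⟨F, rfl⟩; exact (hg F).le_one, fun b hb => ?_⟩
    obtain ⟨X, hX⟩ := exists_wl (UF S) g 1
      (Eventually.of_forall (fun F => IsStarProjection.norm_le _ (hg F)))
    have hX1 : X = 1 := by
      have := mul_pr_eq (A := S) (X := X) (Y := 1) (fun a ha => by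
        refine (hX.mul_right _).eq (WL.const _) ((UF_mem (⟨a, ha⟩ : S)).mono (fun F hF => ?_))
        rw [Finset.sum_mul, Finset.sum_eq_single (⟨a, ha⟩ : S) (fun j _ hj =>
          hSR' _ j.2 _ ha (fun h => hj (Subtype.ext h))) (fun h => absurd hF h), one_mul]
        exact (hSA ha).2.1.isIdempotentElem.eq)
      rwa [hP, mul_one, mul_one] at this
    rw [← hX1]
    exact hX.le (WL.const b) (Eventually.of_forall (fun F => hb ⟨F, rfl⟩))
  have h1 : 0 ≤ (φ 1).re := (Complex.nonneg_iff.1 (hpos _ (one_mem M) zero_le_one)).1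
  rw [Metric.tendsto_nhds]
  intro ε hε
  set K : ℝ := C ^ 2 * (φ 1).re + 1 with hK
  have hK0 : 0 < K := by positivity
  obtain ⟨_, ⟨F, rfl⟩, hF⟩ := hsup (Set.range g) 1 (Set.range_nonempty g) (by
      rintro _ ⟨F, rfl⟩ _ ⟨F', rfl⟩
      exact ⟨_, ⟨F ∪ F', rfl⟩, hmono _ _ Finset.subset_union_left,
        hmono _ _ Finset.subset_union_right⟩)
    (by rintro _ ⟨F, rfl⟩; exact ⟨hgM F, (hg F).nonneg⟩) hlub ((ε / 2) ^ 2 / K) (by positivity)
  have hA : Tendsto (fun i => φ (T i * g F)) l (𝓝 0) := by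
    simp only [g, Finset.mul_sum, map_sum]
    rw [← Finset.sum_const_zero (s := F)]
    refine tendsto_finsetSum F (fun t _ => ?_)
    obtain ⟨ξ, η, h⟩ := (hSA t.2).2.2.2
    have := hl ξ η
    rw [zero_apply, inner_zero_right] at this
    exact this.congr' (hT.mono (fun i hi => (h _ hi.1).symm))
  filter_upwards [hT, Metric.tendsto_nhds.1 hA (ε / 2) (by positivity)] with i hi h2
  rw [dist_zero_right] at h2 ⊢
  have h3 := phi_cs hpos (star_mem hi.1) (sub_mem (one_mem M) (hgM F))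
  rw [star_star, (hg F).one_sub.isSelfAdjoint.star_eq, (hg F).one_sub.isIdempotentElem.eq] at h3
  have h4 : (φ (T i * star (T i))).re ≤ K := by
    have h5 := (IsSelfAdjoint.mul_star_self (T i)).le_algebraMap_norm_self
    rw [Algebra.algebraMap_eq_smul_one] at h5
    have h6 := phi_re_mono hpos (mul_mem hi.1 (star_mem hi.1)) (real_smul_mem M _ (one_mem M)) h5
    rw [phi_real_smul, CStarRing.norm_self_mul_star] at h6
    have h7 : ‖T i‖ * ‖T i‖ ≤ C ^ 2 := by nlinarith [norm_nonneg (T i), hi.2]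
    nlinarith
  have h8 : (φ (1 - g F)).re ≤ (ε / 2) ^ 2 / K := by
    rw [map_sub, Complex.sub_re]
    linarith
  have h9 : 0 ≤ (φ (1 - g F)).re := (Complex.nonneg_iff.1
    (hpos _ (sub_mem (one_mem M) (hgM F)) (hg F).one_sub.nonneg)).1
  have h10 : ‖φ (T i * (1 - g F))‖ ≤ ε / 2 := by
    refine (abs_le_of_sq_le_sq' (h3.trans ?_) (by positivity)).2
    calc (φ (T i * star (T i))).re * (φ (1 - g F)).re ≤ K * ((ε / 2) ^ 2 / K) := by gcongr
      _ = (ε / 2) ^ 2 := by field_simp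
  have h11 : φ (T i) = φ (T i * g F) + φ (T i * (1 - g F)) := by
    rw [← map_add, ← mul_add, add_sub_cancel, mul_one]
  rw [h11]
  linarith [norm_add_le (φ (T i * g F)) (φ (T i * (1 - g F)))]

theorem normalW_of_order {E : Mp H} (hpos : ∀ x ∈ M, 0 ≤ x → 0 ≤ E x)
    (hsup : ∀ (D : Set (Op H)) (x : Op H), D.Nonempty → DirectedOn (· ≤ ·) D →
      (∀ y ∈ D, y ∈ M ∧ 0 ≤ y) → x ∈ M → IsLUB D x → IsLUB (E '' D) (E x)) : NormalW M E := by
  intro ι l T x C hne hT hl
  have hxM : x ∈ M := hl.mem M (hT.mono (fun _ h => h.1))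
  have hdiag : ∀ ζ : H, Tendsto (fun i => ⟪ζ, E (T i - x) ζ⟫_ℂ) l (𝓝 0) := by
    intro ζ
    let φ : Op H →ₗ[ℂ] ℂ :=
      { toFun := fun y => ⟪ζ, E y ζ⟫_ℂ
        map_add' := fun a b => by rw [map_add, add_apply, inner_add_right]
        map_smul' := fun c a => by rw [map_smul, smul_apply, inner_smul_right]; rfl }
    refine tendsto_of_normal (M := M) (φ := φ) (C := C + ‖x‖)
      (fun y hy h0 => nonneg_iff_inner.1 (hpos y hy h0) ζ) (fun D z hD1 hD2 hD3 hD4 ε hε => ?_)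
      (hT.mono (fun i hi => ⟨sub_mem hi.1 hxM, (norm_sub_le _ _).trans (by linarith [hi.2])⟩))
      (by simpa using hl.sub (WL.const x))
    have hzM : z ∈ M := by
      obtain ⟨U, X, -, hX, hlub⟩ := exists_lub hD1 hD2 (fun y hy => (hD3 y hy).2) hD4.1
      rw [hD4.unique hlub]
      exact hX.mem M (Eventually.of_forall (fun i => (hD3 _ i.2).1))
    have hE := hsup D z hD1 hD2 hD3 hzM hD4
    obtain ⟨U, X, -, hX, hlub⟩ := exists_lub (D := E '' D) (hD1.image E) (by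
        rintro _ ⟨a, ha, rfl⟩ _ ⟨b, hb, rfl⟩
        obtain ⟨c, hc, h1, h2⟩ := hD2 a ha b hb
        have hm : ∀ y ∈ D, y ≤ c → E y ≤ E c := fun y hy h => by
          rw [← sub_nonneg, ← map_sub]
          exact hpos _ (sub_mem (hD3 c hc).1 (hD3 y hy).1) (sub_nonneg.2 h)
        exact ⟨_, ⟨c, hc, rfl⟩, hm a ha h1, hm b hb h2⟩)
      (by rintro _ ⟨a, ha, rfl⟩; exact hpos a (hD3 a ha).1 (hD3 a ha).2) hE.1
    rw [← hE.unique hlub] at hX
    obtain ⟨⟨_, y, hy, rfl⟩, h⟩ := (((Complex.continuous_re.tendsto _).comp (hX ζ ζ)).eventually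
      (lt_mem_nhds (sub_lt_self _ hε))).exists
    exact ⟨y, hy, h⟩
  have h0 : WL l (fun i => E (T i - x)) 0 := by
    intro ξ η
    have hp : ∀ A : Op H, ⟪η, A ξ⟫_ℂ = (⟪ξ + η, A (ξ + η)⟫_ℂ - ⟪ξ - η, A (ξ - η)⟫_ℂ +
        Complex.I * ⟪ξ + Complex.I • η, A (ξ + Complex.I • η)⟫_ℂ -
        Complex.I * ⟪ξ - Complex.I • η, A (ξ - Complex.I • η)⟫_ℂ) / 4 := fun A => by
      simp only [map_add, map_sub, map_smul, inner_add_left, inner_add_right, inner_sub_left,
        inner_sub_right, inner_smul_left, inner_smul_right, Complex.conj_I]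
      linear_combination (⟪η, A ξ⟫_ℂ / 2 - ⟪ξ, A η⟫_ℂ / 2) * Complex.I_mul_I
    simp only [hp (E _)]
    have := ((((hdiag (ξ + η)).sub (hdiag (ξ - η))).add
      ((hdiag (ξ + Complex.I • η)).const_mul Complex.I)).sub
      ((hdiag (ξ - Complex.I • η)).const_mul Complex.I)).div_const 4
    simpa using this
  simpa using h0.add (WL.const (E x))

end Pool.Agent.P.MP_7e3bdd_an.Dx
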