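import Pool.Agent.P.MP_7e3bdd_an.Dx.Top

/-!
Projections and partial isometries in a von Neumann algebra.
-/

set_option autoImplicit false

open scoped InnerProductSpace Topology ComplexConjugate
open Filter

noncomputable section

namespace Pool.Agent.P.MP_7e3bdd_an.Dx

variable {H : Type} [NormedAddCommGroup H] [InnerProductSpace ℂ H] [CompleteSpace H]

/-- The closed subspace generated by the ranges of a set of operators. -/
def cl (A : Set (Op H)) : Submodule ℂ H :=
  (Submodule.span ℂ {ξ | ∃ a ∈ A, ∃ η, a η = ξ}).topologicalClosure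

instance (A : Set (Op H)) : CompleteSpace (cl A) :=
  (Submodule.isClosed_topologicalClosure _).completeSpace_coe

/-- The projection onto the closed subspace generated by the ranges of a set of operators. -/
def pr (A : Set (Op H)) : Op H := (cl A).starProjection

theorem pr_proj (A : Set (Op H)) : IsStarProjection (pr A) := isStarProjection_starProjection

omit [CompleteSpace H] in
theorem mem_cl {A : Set (Op H)} {a : Op H} (ha : a ∈ A) (η : H) : a η ∈ cl A :=
  Submodule.le_topologicalClosure _ (Submodule.subset_span ⟨a, ha, η, rfl⟩)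

theorem pr_mul {A : Set (Op H)} {a : Op H} (ha : a ∈ A) : pr A * a = a := by
  ext η
  exact Submodule.starProjection_eq_self_iff.2 (mem_cl ha η)

omit [CompleteSpace H] in
theorem cl_le {A : Set (Op H)} {L : Submodule ℂ H} (hL : IsClosed (L : Set H))
    (h : ∀ a ∈ A, ∀ η, a η ∈ L) : cl A ≤ L :=
  Submodule.topologicalClosure_minimal _ (Submodule.span_le.2 (by
    rintro _ ⟨a, ha, η, rfl⟩
    exact h a ha η)) hL

theorem mul_pr_eq_zero {A : Set (Op H)} {X : Op H} (h : ∀ a ∈ A, X * a = 0) : X * pr A = 0 := by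
  ext ξ
  have : cl A ≤ X.ker := cl_le X.isClosed_ker (fun a ha η => by
    have := congrArg (fun T : Op H => T η) (h a ha)
    simpa using this)
  exact this (Submodule.starProjection_apply_mem _ ξ)

theorem mul_pr_eq {A : Set (Op H)} {X Y : Op H} (h : ∀ a ∈ A, X * a = Y * a) :
    X * pr A = Y * pr A := by
  rw [← sub_eq_zero, ← sub_mul]
  exact mul_pr_eq_zero (fun a ha => by rw [sub_mul, h a ha, sub_self])

theorem pr_mem (N : VonNeumannAlgebra H) {A : Set (Op H)}
    (h : ∀ c ∈ N.commutant, ∀ a ∈ A, ∀ η, c (a η) ∈ cl A) : pr A ∈ N := by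
  rw [VonNeumannAlgebra.IsStarProjection.mem_iff (pr_proj A)]
  intro c hc
  rw [pr, Submodule.range_starProjection, Module.End.mem_invtSubmodule]
  exact cl_le ((Submodule.isClosed_topologicalClosure _).preimage c.continuous) (h c hc)

theorem pr_mem_of_subset (N : VonNeumannAlgebra H) {A : Set (Op H)} (h : ∀ a ∈ A, a ∈ N) :
    pr A ∈ N :=
  pr_mem N (fun c hc a ha η => by
    have h1 := (VonNeumannAlgebra.mem_commutant_iff.1 hc) a (h a ha)
    have : c (a η) = a (c η) := congrArg (fun T : Op H => T η) h1.symm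
    rw [this]
    exact mem_cl ha _)

theorem isClosed_vN (N : VonNeumannAlgebra H) : IsClosed (N : Set (Op H)) := by
  rw [← N.centralizer_centralizer]
  exact Set.isClosed_centralizer _

theorem cfc_mem_vN (N : VonNeumannAlgebra H) (f : ℝ → ℝ) {b : Op H} (hb : b ∈ N) :
    cfc f b ∈ N := by
  have : IsClosed (N.toStarSubalgebra : Set (Op H)) := isClosed_vN N
  exact cfc_mem (𝕜' := ℂ) (s := N.toStarSubalgebra) f hb

/-- A spectral cut of a nonzero positive element. -/
theorem spectral_cut (N : VonNeumannAlgebra H) {b : Op H} (hb : b ∈ N) (h0 : 0 ≤ b)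
    (hne : b ≠ 0) : ∃ r ∈ N, ∃ s ∈ N, ∃ c : ℝ, 0 < c ∧ IsStarProjection r ∧ r ≠ 0 ∧
      c • r ≤ b ∧ star s * b * s = r ∧ s * r = s ∧ ∀ p : Op H, p * b = b → p * r = r := by
  have hbs : IsSelfAdjoint b := h0.isSelfAdjoint
  have : Nontrivial (Op H) := nontrivial_of_ne _ _ hne
  set ε : ℝ := ‖b‖ / 2 with hε
  have hnb : 0 < ‖b‖ := norm_pos_iff.2 hne
  have hεp : 0 < ε := by positivity
  have hmax : ∀ s : ℝ, 0 < max s ε := fun s => lt_max_of_lt_right hεp
  let k : ℝ → ℝ := fun s => max (s - ε) 0
  let f : ℝ → ℝ := fun s => (Real.sqrt (max s ε))⁻¹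
  let g : ℝ → ℝ := fun s => s / max s ε
  have hk : Continuous k := by fun_prop
  have hf : Continuous f := Continuous.inv₀ (by fun_prop)
    (fun s => (Real.sqrt_pos.2 (hmax s)).ne')
  have hg : Continuous g := Continuous.div (by fun_prop) (by fun_prop) (fun s => (hmax s).ne')
  have hkne : cfc k b ≠ 0 := by
    intro h
    rw [← cfc_zero ℝ b] at h
    have := eqOn_of_cfc_eq_cfc h hk.continuousOn continuousOn_const hbs
      (CStarAlgebra.norm_mem_spectrum_of_nonneg h0)
    have h2 : k ‖b‖ = ε := by
      simp only [k]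
      rw [max_eq_left (by linarith)]
      linarith
    rw [h2] at this
    exact hεp.ne' this
  have hgk : cfc g b * cfc k b = cfc k b := by
    rw [← cfc_mul g k b hg.continuousOn hk.continuousOn]
    refine cfc_congr (fun s _ => ?_)
    simp only [g, k]
    rcases le_total s ε with h | h
    · rw [max_eq_right (by linarith : s - ε ≤ 0), mul_zero]
    · rw [max_eq_left h, div_self (by linarith), one_mul]
  have hff : ∀ s, f s * f s = (max s ε)⁻¹ := fun s => by
    simp only [f]
    rw [← mul_inv, Real.mul_self_sqrt (hmax s).le]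
  have hg1 : cfc f b * b * cfc f b = cfc g b := by
    conv_lhs => enter [1, 2]; rw [← cfc_id' ℝ b hbs]
    rw [← cfc_mul f (fun x => x) b hf.continuousOn continuousOn_id,
      ← cfc_mul (fun x => f x * x) f b (hf.mul continuous_id).continuousOn hf.continuousOn]
    refine cfc_congr (fun s _ => ?_)
    simp only [g]
    rw [mul_right_comm, hff, div_eq_inv_mul]
  have hg2 : b * cfc (fun s => f s * f s) b = cfc g b := by
    conv_lhs => enter [1]; rw [← cfc_id' ℝ b hbs]
    rw [← cfc_mul (fun x => x) (fun s => f s * f s) b continuousOn_id (hf.mul hf).continuousOn]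
    refine cfc_congr (fun s _ => ?_)
    simp only [g]
    rw [hff, div_eq_mul_inv]
  set r : Op H := pr {cfc k b} with hr
  have hrp : IsStarProjection r := pr_proj _
  have hgr : cfc g b * r = r := by
    have := mul_pr_eq (A := {cfc k b}) (X := cfc g b) (Y := 1) (by
      rintro _ rfl
      rw [hgk, one_mul])
    rwa [one_mul] at this
  have hgs : IsSelfAdjoint (cfc g b) := cfc_predicate g b
  have hfs : IsSelfAdjoint (cfc f b) := cfc_predicate f b
  have hrg : r * cfc g b = r := by
    have := congrArg star hgr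
    rwa [star_mul, hrp.isSelfAdjoint.star_eq, hgs.star_eq] at this
  have hspec : ∀ s ∈ spectrum ℝ b, 0 ≤ s := fun s hs => spectrum_nonneg_of_nonneg h0 hs
  have hg0 : 0 ≤ cfc g b := cfc_nonneg (fun s hs => div_nonneg (hspec s hs) (hmax s).le)
  have hrN : r ∈ N := pr_mem_of_subset N (by rintro _ rfl; exact cfc_mem_vN N k hb)
  refine ⟨r, hrN, cfc f b * r, mul_mem (cfc_mem_vN N f hb) hrN, ε, hεp, hrp, fun h => ?_, ?_, ?_,
    ?_, fun p hp => ?_⟩
  · have := pr_mul (A := {cfc k b}) rfl
    rw [← hr, h, zero_mul] at this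
    exact hkne this.symm
  · have h1 : r ≤ cfc g b := by
      rw [← sub_nonneg]
      have h2 := star_left_conjugate_nonneg hg0 (1 - r)
      rw [hrp.one_sub.isSelfAdjoint.star_eq] at h2
      refine le_of_le_of_eq h2 ?_
      rw [sub_mul, one_mul, hrg, mul_sub, mul_one, sub_mul, hgr, hrp.isIdempotentElem.eq]
      abel
    have h3 : ε • cfc g b ≤ b := by
      rw [← cfc_const_mul ε g b hg.continuousOn]
      conv_rhs => rw [← cfc_id' ℝ b hbs]
      refine cfc_mono (fun s hs => ?_) (hg.const_mul ε).continuousOn continuousOn_id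
      simp only [g]
      rw [mul_div_assoc', div_le_iff₀ (hmax s), mul_comm]
      exact mul_le_mul_of_nonneg_left (le_max_right _ _) (hspec s hs)
    exact (smul_le_smul_of_nonneg_left h1 hεp.le).trans h3
  · rw [star_mul, hrp.isSelfAdjoint.star_eq, hfs.star_eq]
    calc r * cfc f b * b * (cfc f b * r) = r * (cfc f b * b * cfc f b) * r := by
          simp only [mul_assoc]
      _ = r := by rw [hg1, hrg, hrp.isIdempotentElem.eq]
  · rw [mul_assoc, hrp.isIdempotentElem.eq]
  · rw [← hgr, ← hg2, ← mul_assoc, ← mul_assoc, hp]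

/-- Partial isometries. -/
def PI (t : Op H) : Prop := t * star t * t = t

theorem PI.of_proj {t : Op H} (h : IsStarProjection (star t * t)) : PI t := by
  rw [PI, ← sub_eq_zero, ← CStarRing.star_mul_self_eq_zero_iff]
  have h1 : star t * t * (star t * t) = star t * t := h.isIdempotentElem.eq
  have h2 : star (t * star t * t - t) * (t * star t * t - t) =
      star t * t * (star t * t) * (star t * t) - star t * t * (star t * t) -
        star t * t * (star t * t) + star t * t := by
    simp only [star_sub, star_mul, star_star]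
    noncomm_ring
  rw [h2, h1, h1]
  abel

theorem PI.star {t : Op H} (h : PI t) : PI (star t) := by
  have := congrArg Star.star h
  simpa [PI, mul_assoc] using this

theorem PI.proj {t : Op H} (h : PI t) : IsStarProjection (Star.star t * t) :=
  ⟨by
    change Star.star t * t * (Star.star t * t) = Star.star t * t
    rw [mul_assoc, ← mul_assoc t, h], IsSelfAdjoint.star_mul_self t⟩

theorem PI.proj' {t : Op H} (h : PI t) : IsStarProjection (t * Star.star t) := by
  simpa using h.star.proj

theorem PI.norm_le {t : Op H} (h : PI t) : ‖t‖ ≤ 1 := by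
  have h1 := h.proj.norm_le
  rw [CStarRing.norm_star_mul_self] at h1
  nlinarith [norm_nonneg t]

theorem PI.of_isStarProjection {p : Op H} (h : IsStarProjection p) : PI p := by
  rw [PI, h.isSelfAdjoint.star_eq, h.isIdempotentElem.eq, h.isIdempotentElem.eq]

/-- `N` has trivial centre. -/
def Fac (N : VonNeumannAlgebra H) : Prop :=
  ∀ z ∈ N, (∀ y ∈ N, z * y = y * z) → ∃ c : ℂ, z = c • (1 : Op H)

theorem exists_link {N : VonNeumannAlgebra H} (hN : Fac N) {p q : Op H} (hpN : p ∈ N)
    (hqN : q ∈ N) (hp : IsStarProjection p) (hq : IsStarProjection q) (hp0 : p ≠ 0)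
    (hq0 : q ≠ 0) : ∃ t ∈ N, t ≠ 0 ∧ PI t ∧ q * t = t ∧ t * p = t := by
  obtain ⟨a, ha, hx⟩ : ∃ a ∈ N, q * a * p ≠ 0 := by
    by_contra hcon
    push Not at hcon
    let A : Set (Op H) := {x | ∃ a ∈ N, x = a * p}
    have h1 : pr A ∈ N := pr_mem_of_subset N (by
      rintro _ ⟨a, ha, rfl⟩
      exact mul_mem ha hpN)
    have h2 : pr A ∈ N.commutant := pr_mem N.commutant (by
      rw [N.commutant_commutant]
      rintro c hc _ ⟨a, ha, rfl⟩ η
      exact mem_cl (A := A) (a := c * a * p) ⟨c * a, mul_mem hc ha, rfl⟩ η)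
    obtain ⟨c, hc⟩ := hN _ h1
      (fun y hy => ((VonNeumannAlgebra.mem_commutant_iff.1 h2) y hy).symm)
    have h3 : pr A * p = p := pr_mul ⟨1, one_mem N, (one_mul p).symm⟩
    have h4 : q * pr A = 0 := mul_pr_eq_zero (by
      rintro _ ⟨a, ha, rfl⟩
      rw [← mul_assoc]
      exact hcon a ha)
    rw [hc, smul_mul_assoc, one_mul] at h3
    rw [hc, mul_smul_comm, mul_one, smul_eq_zero] at h4
    rcases h4 with h4 | h4
    · rw [h4, zero_smul] at h3
      exact hp0 h3.symm
    · exact hq0 h4
  set x := q * a * p with hxdef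
  have hxN : x ∈ N := mul_mem (mul_mem hqN ha) hpN
  obtain ⟨r, -, s, hs, -, -, hrp, hr0, -, hsr, hs2, hpr⟩ := spectral_cut N
    (mul_mem (star_mem hxN) hxN) (star_mul_self_nonneg x)
    (fun h => hx (CStarRing.star_mul_self_eq_zero_iff x |>.1 h))
  have htt : star (x * s) * (x * s) = r := by
    rw [← hsr, star_mul]
    simp only [mul_assoc]
  have hxp : x * p = x := by rw [hxdef, mul_assoc, hp.isIdempotentElem.eq]
  have hpr' : p * r = r := hpr p (by
    have := congrArg star hxp
    rw [star_mul, hp.isSelfAdjoint.star_eq] at this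
    rw [← mul_assoc, this])
  have hrp' : r * p = r := by
    have := congrArg star hpr'
    rwa [star_mul, hp.isSelfAdjoint.star_eq, hrp.isSelfAdjoint.star_eq] at this
  refine ⟨x * s, mul_mem hxN hs, fun h => hr0 (by rw [← htt, h, mul_zero]),
    PI.of_proj (htt ▸ hrp), ?_, ?_⟩
  · rw [hxdef]
    simp only [← mul_assoc, hq.isIdempotentElem.eq]
  · rw [← hs2, mul_assoc x, mul_assoc s, hrp']

end Pool.Agent.P.MP_7e3bdd_an.Dx
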