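import Pool.Agent.P.MP_7e3bdd_an.Dx.Sg

/-!
Properties of the elements of the semigroup, orbits, and null elements.
-/

set_option autoImplicit false

open scoped InnerProductSpace Topology ComplexConjugate
open Filter

noncomputable section

namespace Pool.Agent.P.MP_7e3bdd_an.Dx

attribute [local instance] tau

variable {H : Type} [NormedAddCommGroup H] [InnerProductSpace ℂ H] [CompleteSpace H]
variable {G : Set (Op H)}

omit [CompleteSpace H] in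
theorem comb_apply (a b : ℝ) (Φ Ψ : Mp H) (x : Op H) :
    (a • Φ + b • Ψ) x = a • Φ x + b • Ψ x := rfl

theorem map_nonneg_SG {Φ : Mp H} (hΦ : Φ ∈ SG G) {x : Op H} (hx : 0 ≤ x) : 0 ≤ Φ x := by
  refine SG_ind (P := {Φ | 0 ≤ Φ x}) ?_ (isClosed_of_wl (fun _ _ _ hP hl => (hl x).nonneg hP))
    (fun u _ => ?_) hΦ
  · intro Φ hΦ Ψ hΨ a b ha hb _
    have h1 : 0 ≤ Φ x := hΦ
    have h2 : 0 ≤ Ψ x := hΨ
    exact add_nonneg (smul_nonneg ha h1) (smul_nonneg hb h2)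
  · change 0 ≤ Ad u x
    rw [Ad_apply]
    exact star_right_conjugate_nonneg hx u

theorem map_le_SG {Φ : Mp H} (hΦ : Φ ∈ SG G) {x y : Op H} (h : x ≤ y) : Φ x ≤ Φ y := by
  rw [← sub_nonneg, ← map_sub]
  exact map_nonneg_SG hΦ (sub_nonneg.2 h)

theorem map_star_SG {Φ : Mp H} (hΦ : Φ ∈ SG G) (x : Op H) : Φ (star x) = star (Φ x) := by
  refine SG_ind (P := {Φ | Φ (star x) = star (Φ x)}) ?_
    (isClosed_of_wl (fun _ _ _ hP hl => (hl (star x)).eq (hl x).star hP)) (fun u _ => ?_) hΦ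
  · intro Φ hΦ Ψ hΨ a b _ _ _
    change (a • Φ + b • Ψ) (star x) = star ((a • Φ + b • Ψ) x)
    have h1 : Φ (star x) = star (Φ x) := hΦ
    have h2 : Ψ (star x) = star (Ψ x) := hΨ
    rw [comb_apply, comb_apply, h1, h2, star_add, star_smul, star_smul, star_trivial a,
      star_trivial b]
  · change Ad u (star x) = star (Ad u x)
    simp [mul_assoc]

theorem map_sa_SG {Φ : Mp H} (hΦ : Φ ∈ SG G) {x : Op H} (hx : IsSelfAdjoint x) :
    IsSelfAdjoint (Φ x) := by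
  rw [IsSelfAdjoint, ← map_star_SG hΦ, hx.star_eq]

theorem map_one_SG (hG : ∀ u ∈ G, u ∈ unitary (Op H)) {Φ : Mp H} (hΦ : Φ ∈ SG G) : Φ 1 = 1 := by
  refine SG_ind (P := {Φ | Φ 1 = 1}) ?_
    (isClosed_of_wl (fun _ _ _ hP hl => (hl 1).eq (WL.const 1) hP)) (fun u hu => ?_) hΦ
  · intro Φ hΦ Ψ hΨ a b _ _ hab
    change (a • Φ + b • Ψ) 1 = 1
    have h1 : Φ 1 = 1 := hΦ
    have h2 : Ψ 1 = 1 := hΨ
    rw [comb_apply, h1, h2, ← add_smul, hab, one_smul]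
  · change Ad u 1 = 1
    rw [Ad_apply, mul_one]
    exact (Unitary.mem_iff.1 (hG u hu)).2

theorem real_smul_mem (M : VonNeumannAlgebra H) (a : ℝ) {x : Op H} (hx : x ∈ M) : a • x ∈ M :=
  M.toStarSubalgebra.smul_mem hx (a : ℂ)

theorem map_mem_SG (M : VonNeumannAlgebra H) (hGM : ∀ u ∈ G, u ∈ M) {Φ : Mp H} (hΦ : Φ ∈ SG G)
    {x : Op H} (hx : x ∈ M) : Φ x ∈ M := by
  refine SG_ind (P := {Φ | Φ x ∈ M}) ?_
    (isClosed_of_wl (fun _ _ _ hP hl => (hl x).mem M hP)) (fun u hu => ?_) hΦ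
  · intro Φ hΦ Ψ hΨ a b _ _ _
    exact add_mem (real_smul_mem M a hΦ) (real_smul_mem M b hΨ)
  · change Ad u x ∈ M
    rw [Ad_apply]
    exact mul_mem (mul_mem (hGM u hu) hx) (star_mem (hGM u hu))

/-- Kadison's inequality. -/
theorem kadison (hG : ∀ u ∈ G, u ∈ unitary (Op H)) {Φ : Mp H} (hΦ : Φ ∈ SG G) {x : Op H}
    (hx : IsSelfAdjoint x) : Φ x * Φ x ≤ Φ (x * x) := by
  have key : ∀ A : Op H, IsSelfAdjoint A → A * Φ x + Φ x * A - A * A ≤ Φ (x * x) := by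
    intro A hA
    refine SG_ind (P := {Φ | A * Φ x + Φ x * A - A * A ≤ Φ (x * x)}) ?_
      (isClosed_of_wl (fun _ _ _ hP hl =>
        ((((hl x).mul_left A).add ((hl x).mul_right A)).sub (WL.const _)).le (hl (x * x)) hP))
      (fun u hu => ?_) hΦ
    · intro Φ hΦ Ψ hΨ a b ha hb hab
      change A * (a • Φ + b • Ψ) x + (a • Φ + b • Ψ) x * A - A * A ≤ (a • Φ + b • Ψ) (x * x)
      have hΦ' : A * Φ x + Φ x * A - A * A ≤ Φ (x * x) := hΦ
      have hΨ' : A * Ψ x + Ψ x * A - A * A ≤ Ψ (x * x) := hΨ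
      have h := add_le_add (smul_le_smul_of_nonneg_left hΦ' ha)
        (smul_le_smul_of_nonneg_left hΨ' hb)
      refine le_trans (le_of_eq ?_) h
      have h1 : A * A = a • (A * A) + b • (A * A) := by rw [← add_smul, hab, one_smul]
      rw [comb_apply]
      simp only [mul_add, add_mul, mul_smul_comm, smul_mul_assoc, smul_sub, smul_add]
      conv_lhs => rw [h1]
      abel
    · change A * Ad u x + Ad u x * A - A * A ≤ Ad u (x * x)
      have hw : IsSelfAdjoint (Ad u x) := map_sa_SG (Ad_mem hu) hx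
      have hsq : Ad u (x * x) = Ad u x * Ad u x := by
        have := (Unitary.mem_iff.1 (hG u hu)).1
        simp only [Ad_apply, mul_assoc]
        rw [← mul_assoc (star u) u, this, one_mul]
      have h0 : 0 ≤ (A - Ad u x) * (A - Ad u x) := (hA.sub hw).mul_self_nonneg
      rw [hsq, ← sub_nonneg]
      refine le_of_le_of_eq h0 ?_
      noncomm_ring
  have := key (Φ x) (map_sa_SG hΦ hx)
  rwa [add_sub_cancel_right] at this

/-- The orbit of `a` under the semigroup. -/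
def Orb (G : Set (Op H)) (a : Op H) : Set (Op H) := {w | ∃ Φ ∈ SG G, Φ a = w}

theorem convex_orb (a : Op H) : Convex ℝ (Orb G a) := by
  rintro _ ⟨Φ, hΦ, rfl⟩ _ ⟨Ψ, hΨ, rfl⟩ s t hs ht hst
  exact ⟨_, convex_SG hΦ hΨ hs ht hst, rfl⟩

theorem isClosed_cf_orb (hG : ∀ u ∈ G, u ∈ unitary (Op H)) (a : Op H) :
    IsClosed (cf '' Orb G a) := by
  have hc : Continuous (fun Φ : Mp H => cf (Φ a)) :=
    continuous_iff_continuousAt.2 (fun Φ => wl_iff.1 (wl_eval Φ a))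
  have : cf '' Orb G a = (fun Φ : Mp H => cf (Φ a)) '' SG G := by
    ext F
    constructor
    · rintro ⟨_, ⟨Φ, hΦ, rfl⟩, rfl⟩
      exact ⟨Φ, hΦ, rfl⟩
    · rintro ⟨Φ, hΦ, rfl⟩
      exact ⟨_, ⟨Φ, hΦ, rfl⟩, rfl⟩
  rw [this]
  exact ((isCompact_SG hG).image hc).isClosed

theorem WL.mem_orb (hG : ∀ u ∈ G, u ∈ unitary (Op H)) {a : Op H} {ι : Type} {l : Filter ι}
    [l.NeBot] {T : ι → Op H} {w : Op H} (h : WL l T w) (hT : ∀ᶠ i in l, T i ∈ Orb G a) :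
    w ∈ Orb G a := by
  obtain ⟨w', hw', he⟩ := (isClosed_cf_orb hG a).mem_of_tendsto (wl_iff.1 h)
    (hT.mono (fun i hi => ⟨_, hi, rfl⟩))
  rwa [← cf_injective he]

/-- `y` lies in the weak closure of the convex hull of the conjugates of `x`. -/
def Hull (G : Set (Op H)) (x y : Op H) : Prop :=
  ∀ (n : ℕ) (ξ η : Fin n → H) (ε : ℝ), 0 < ε →
    ∃ T ∈ convexHull ℝ {T : Op H | ∃ u ∈ G, T = u * x * star u},
      ∀ i : Fin n, ‖⟪η i, (T - y) (ξ i)⟫_ℂ‖ < ε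

theorem hull_of_mem {Φ : Mp H} (hΦ : Φ ∈ SG G) (x : Op H) : Hull G x (Φ x) := by
  intro n ξ η ε hε
  have hev : ∀ᶠ Ψ in 𝓝 Φ, ∀ i : Fin n, ‖⟪η i, (Ψ x - Φ x) (ξ i)⟫_ℂ‖ < ε := by
    rw [eventually_all]
    intro i
    have := Metric.tendsto_nhds.1 (wl_eval Φ x (ξ i) (η i)) ε hε
    refine this.mono (fun Ψ hΨ => ?_)
    rwa [sub_apply, inner_sub_right, ← dist_eq_norm]
  obtain ⟨Ψ, hΨ, hΨC⟩ := mem_closure_iff_nhds.1 hΦ _ hev
  refine ⟨Ψ x, ?_, hΨ⟩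
  refine convexHull_min (t := {Ψ : Mp H | Ψ x ∈
    convexHull ℝ {T : Op H | ∃ u ∈ G, T = u * x * star u}}) ?_ ?_ hΨC
  · rintro _ ⟨u, hu, rfl⟩
    exact subset_convexHull ℝ _ ⟨u, hu, Ad_apply u x⟩
  · intro A hA B hB a b ha hb hab
    exact convex_convexHull ℝ _ hA hB ha hb hab

theorem mem_orb_of_hull (hG : ∀ u ∈ G, u ∈ unitary (Op H)) {x y : Op H} (h : Hull G x y) :
    y ∈ Orb G x := by
  have hsub : convexHull ℝ {T : Op H | ∃ u ∈ G, T = u * x * star u} ⊆ Orb G x :=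
    convexHull_min (by
      rintro _ ⟨u, hu, rfl⟩
      exact ⟨Ad u, Ad_mem hu, Ad_apply u x⟩) (convex_orb x)
  have hcl : cf y ∈ closure (cf '' Orb G x) := by
    rw [mem_closure_iff_nhds]
    intro s hs
    rw [nhds_pi, Filter.mem_pi] at hs
    obtain ⟨I, hI, t, ht, hts⟩ := hs
    choose δ hδ hball using fun p => Metric.mem_nhds_iff.1 (ht p)
    obtain ⟨n, f, hf⟩ := hI.fin_param
    obtain ⟨ε, hε, hle⟩ : ∃ ε : ℝ, 0 < ε ∧ ∀ i : Fin n, ε ≤ δ (f i) := by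
      have : ∀ᶠ ε in 𝓝[>] (0 : ℝ), ∀ i : Fin n, ε ≤ δ (f i) :=
        eventually_all.2 (fun i => mem_nhdsWithin_of_mem_nhds (Iic_mem_nhds (hδ _)))
      obtain ⟨ε, h1, h2⟩ := (this.and self_mem_nhdsWithin).exists
      exact ⟨ε, h2, h1⟩
    obtain ⟨T, hT, hTy⟩ := h n (fun i => (f i).1) (fun i => (f i).2) ε hε
    refine ⟨cf T, hts (fun p hp => hball p ?_), T, hsub hT, rfl⟩
    rw [← hf.2] at hp
    obtain ⟨i, rfl⟩ := hp
    have := hTy i
    rw [sub_apply, inner_sub_right, ← dist_eq_norm] at this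
    exact this.trans_le (hle i)
  obtain ⟨w, hw, he⟩ := (isClosed_cf_orb hG x).closure_subset hcl
  rwa [← cf_injective he]

/-- Null elements for `e`. -/
def Null (G : Set (Op H)) (e : Mp H) (y : Op H) : Prop := 0 ≤ y ∧ ∀ Φ ∈ SG G, e (Φ y) = 0

variable {e : Mp H}

theorem Null.of_le (he : e ∈ SG G) {x y : Op H} (hy : Null G e y) (hx : 0 ≤ x) (h : x ≤ y) :
    Null G e x :=
  ⟨hx, fun Φ hΦ => le_antisymm ((map_le_SG he (map_le_SG hΦ h)).trans_eq (hy.2 Φ hΦ))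
    (map_nonneg_SG he (map_nonneg_SG hΦ hx))⟩

theorem Null.add {x y : Op H} (hx : Null G e x) (hy : Null G e y) : Null G e (x + y) :=
  ⟨add_nonneg hx.1 hy.1, fun Φ hΦ => by rw [map_add, map_add, hx.2 Φ hΦ, hy.2 Φ hΦ, add_zero]⟩

theorem Null.smul {x : Op H} (hx : Null G e x) {c : ℝ} (hc : 0 ≤ c) : Null G e (c • x) :=
  ⟨smul_nonneg hc hx.1, fun Φ hΦ => by
    change e (Φ ((c : ℂ) • x)) = 0
    rw [map_smul, map_smul, hx.2 Φ hΦ, smul_zero]⟩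

theorem Null.zero : Null G e 0 := ⟨le_rfl, fun Φ _ => by rw [map_zero, map_zero]⟩

theorem Null.orb (hmul : ∀ u ∈ G, ∀ v ∈ G, u * v ∈ G) {x w : Op H} (hx : Null G e x)
    (hw : w ∈ Orb G x) : Null G e w := by
  obtain ⟨Ψ, hΨ, rfl⟩ := hw
  exact ⟨map_nonneg_SG hΨ hx.1, fun Φ hΦ => hx.2 _ (mul_mem_SG hmul hΦ hΨ)⟩

theorem not_null_one [Nontrivial H] (hG : ∀ u ∈ G, u ∈ unitary (Op H)) (h1 : (1 : Op H) ∈ G)
    (he : e ∈ SG G) : ¬ Null G e 1 := fun h => by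
  have := h.2 _ (Ad_mem h1)
  rw [map_one_SG hG (Ad_mem h1), map_one_SG hG he] at this
  exact one_ne_zero this

/-- The key inequality: an element of the range of a rigid map is invariant up to null terms. -/
theorem null_sq (hG : ∀ u ∈ G, u ∈ unitary (Op H))
    (hmul : ∀ u ∈ G, ∀ v ∈ G, u * v ∈ G) (he : e ∈ SG G)
    (hr : ∀ Θ ∈ SG G, ∀ x, e (Θ (e x)) = e x) {x : Op H} (hx : IsSelfAdjoint x)
    {Φ : Mp H} (hΦ : Φ ∈ SG G) : Null G e ((e x - Φ (e x)) * (e x - Φ (e x))) := by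
  set z := e x with hz
  have hzs : IsSelfAdjoint z := map_sa_SG he hx
  have hws : IsSelfAdjoint (Φ z) := map_sa_SG hΦ hzs
  have hq : ∀ Θ ∈ SG G, ∀ Θ' ∈ SG G, ∀ m : Op H, IsSelfAdjoint m → e (Θ' m) = z →
      e (Θ (z * z)) ≤ e (Θ' (m * m)) := by
    intro Θ hΘ Θ' hΘ' m hm hmz
    have h2 := kadison hG (mul_mem_SG hmul he hΘ') hm
    rw [Module.End.mul_apply, Module.End.mul_apply, hmz] at h2
    exact (map_le_SG he (map_le_SG hΘ h2)).trans_eq (hr Θ hΘ _)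
  refine ⟨(hzs.sub hws).mul_self_nonneg, fun Θ hΘ => ?_⟩
  refine le_antisymm ?_ (map_nonneg_SG he (map_nonneg_SG hΘ (hzs.sub hws).mul_self_nonneg))
  have hA : e (Θ (Φ z * Φ z)) ≤ e (Θ (z * z)) :=
    (map_le_SG he (map_le_SG hΘ (kadison hG hΦ hzs))).trans
      (hq _ (mul_mem_SG hmul hΘ hΦ) Θ hΘ z hzs (hr Θ hΘ x))
  have hm : IsSelfAdjoint ((2⁻¹ : ℝ) • (z + Φ z)) := (IsSelfAdjoint.all _).smul (hzs.add hws)
  have hB : e (Θ (z * z)) ≤ e (Θ (((2⁻¹ : ℝ) • (z + Φ z)) * ((2⁻¹ : ℝ) • (z + Φ z)))) := by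
    refine hq Θ hΘ Θ hΘ _ hm ?_
    change e (Θ (((2⁻¹ : ℝ) : ℂ) • (z + Φ z))) = z
    rw [map_smul, map_smul, map_add, map_add, hr Θ hΘ x]
    have := hr _ (mul_mem_SG hmul hΘ hΦ) x
    rw [Module.End.mul_apply] at this
    rw [this, ← two_smul ℂ, smul_smul]
    simp [hz]
  set m := (2⁻¹ : ℝ) • (z + Φ z) with hmdef
  have hid : (z - Φ z) * (z - Φ z) =
      (z * z + z * z) + (Φ z * Φ z + Φ z * Φ z) - ((m * m + m * m) + (m * m + m * m)) := by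
    have h4 : (m * m + m * m) + (m * m + m * m) = (z + Φ z) * (z + Φ z) := by
      rw [hmdef, smul_mul_smul_comm, ← add_smul, ← add_smul]
      norm_num
    rw [h4]
    noncomm_ring
  rw [hid]
  simp only [map_sub, map_add]
  rw [sub_nonpos]
  exact add_le_add (add_le_add hB hB) (add_le_add (hA.trans hB) (hA.trans hB))

end Pool.Agent.P.MP_7e3bdd_an.Dx
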