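import Pool.Agent.P.MP_7e3bdd_an.Dx.Top

/-!
The compact convex semigroup generated by the conjugations by a monoid of unitaries, and a rigid
idempotent in it.
-/

set_option autoImplicit false

open scoped InnerProductSpace Topology ComplexConjugate
open Filter

noncomputable section

namespace Pool.Agent.P.MP_7e3bdd_an.Dx

attribute [local instance] tau

variable {H : Type} [NormedAddCommGroup H] [InnerProductSpace ℂ H] [CompleteSpace H]

/-- The map `x ↦ u x u⋆`. -/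
def Ad (u : Op H) : Mp H := LinearMap.mulLeftRight ℂ (u, star u)

@[simp] theorem Ad_apply (u x : Op H) : Ad u x = u * x * star u := by
  simp [Ad]

theorem Ad_mul (u v : Op H) : Ad (u * v) = Ad u * Ad v := by
  refine LinearMap.ext (fun x => ?_)
  simp [mul_assoc]

theorem Ad_one : Ad (1 : Op H) = 1 := by
  refine LinearMap.ext (fun x => ?_)
  simp

/-- The closed convex hull of the conjugations by elements of `G`. -/
def SG (G : Set (Op H)) : Set (Mp H) := closure (convexHull ℝ (Ad '' G))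

variable {G : Set (Op H)}

theorem Ad_mem {u : Op H} (hu : u ∈ G) : Ad u ∈ SG G :=
  subset_closure (subset_convexHull ℝ _ ⟨u, hu, rfl⟩)

theorem isClosed_SG : IsClosed (SG G) := isClosed_closure

theorem SG_ind {P : Set (Mp H)} (hc : Convex ℝ P) (hP : IsClosed P) (h : ∀ u ∈ G, Ad u ∈ P) :
    SG G ⊆ P :=
  closure_minimal (convexHull_min (by rintro _ ⟨u, hu, rfl⟩; exact h u hu) hc) hP

theorem SG_ind' (P : Mp H → Prop) (hc : Convex ℝ {Φ | P Φ}) (hP : IsClosed {Φ | P Φ})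
    (h : ∀ u ∈ G, P (Ad u)) {Φ : Mp H} (hΦ : Φ ∈ SG G) : P Φ :=
  SG_ind hc hP h hΦ

omit [CompleteSpace H] in
theorem rsmul_apply (a : ℝ) (Φ : Mp H) (x : Op H) : (a • Φ) x = (a : ℂ) • Φ x := by
  rw [LinearMap.smul_apply, Complex.coe_smul]

theorem convex_SG : Convex ℝ (SG G) := by
  intro Φ hΦ Ψ hΨ a b ha hb hab
  have hcont : Continuous (fun p : Mp H × Mp H => a • p.1 + b • p.2) := by
    refine continuous_tau (fun p x => ?_)
    have h1 : WL (𝓝 p) (fun q : Mp H × Mp H => q.1 x) (p.1 x) :=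
      tendsto_tau.1 (continuous_fst.tendsto p) x
    have h2 : WL (𝓝 p) (fun q : Mp H × Mp H => q.2 x) (p.2 x) :=
      tendsto_tau.1 (continuous_snd.tendsto p) x
    simpa only [LinearMap.add_apply, rsmul_apply] using (h1.smul a).add (h2.smul b)
  exact map_mem_closure₂ (f := fun Φ Ψ : Mp H => a • Φ + b • Ψ) hcont hΦ hΨ
    (fun Φ hΦ Ψ hΨ => convex_convexHull ℝ _ hΦ hΨ ha hb hab)

theorem mul_mem_SG (hmul : ∀ u ∈ G, ∀ v ∈ G, u * v ∈ G) {Φ Ψ : Mp H} (hΦ : Φ ∈ SG G)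
    (hΨ : Ψ ∈ SG G) : Φ * Ψ ∈ SG G := by
  have hconv : ∀ A B : Mp H, Convex ℝ {Θ : Mp H | A * Θ * B ∈ SG G} := by
    intro A B Θ hΘ Θ' hΘ' a b ha hb hab
    rw [Set.mem_ofPred_eq] at hΘ hΘ'
    have h : a • (A * Θ * B) + b • (A * Θ' * B) ∈ SG G := convex_SG hΘ hΘ' ha hb hab
    have he : A * (a • Θ + b • Θ') * B = a • (A * Θ * B) + b • (A * Θ' * B) := by
      refine LinearMap.ext (fun x => ?_)
      simp only [Module.End.mul_apply, LinearMap.add_apply, rsmul_apply, map_add, map_smul]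
    rw [Set.mem_ofPred_eq, he]
    exact h
  have h1 : ∀ u ∈ G, Ad u * Ψ ∈ SG G := by
    intro u hu
    have hc : Continuous (fun Θ : Mp H => Ad u * Θ) := continuous_tau (fun a x => by
      simpa only [Module.End.mul_apply, Ad_apply] using (wl_eval a x).mul_mul u (star u))
    refine SG_ind' (fun Ψ => Ad u * Ψ ∈ SG G) (by simpa only [mul_one] using hconv (Ad u) 1)
      (isClosed_SG.preimage hc) (fun v hv => ?_) hΨ
    rw [← Ad_mul]
    exact Ad_mem (hmul u hu v hv)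
  have hc : Continuous (fun Θ : Mp H => Θ * Ψ) := continuous_tau (fun a x => by
    simpa only [Module.End.mul_apply] using wl_eval a (Ψ x))
  exact SG_ind' (fun Φ => Φ * Ψ ∈ SG G) (by simpa only [one_mul] using hconv 1 Ψ)
    (isClosed_SG.preimage hc) h1 hΦ

omit [CompleteSpace H] in
theorem isClosed_norm_le (x : Op H) (r : ℝ) : IsClosed {Φ : Mp H | ‖Φ x‖ ≤ r} :=
  isClosed_of_wl (fun _ _ _ hP hl => (hl x).norm_le hP)

theorem norm_apply_le (hG : ∀ u ∈ G, u ∈ unitary (Op H)) {Φ : Mp H} (hΦ : Φ ∈ SG G) (x : Op H) :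
    ‖Φ x‖ ≤ ‖x‖ := by
  refine SG_ind (P := {Φ | ‖Φ x‖ ≤ ‖x‖}) ?_ (isClosed_norm_le x _) (fun u hu => ?_) hΦ
  · intro Φ hΦ Ψ hΨ a b ha hb hab
    change ‖a • Φ x + b • Ψ x‖ ≤ ‖x‖
    refine (norm_add_le _ _).trans ?_
    rw [norm_smul, norm_smul, Real.norm_of_nonneg ha, Real.norm_of_nonneg hb]
    have h1 : ‖Φ x‖ ≤ ‖x‖ := hΦ
    have h2 : ‖Ψ x‖ ≤ ‖x‖ := hΨ
    calc a * ‖Φ x‖ + b * ‖Ψ x‖ ≤ a * ‖x‖ + b * ‖x‖ := by gcongr
      _ = ‖x‖ := by rw [← add_mul, hab, one_mul]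
  · change ‖Ad u x‖ ≤ ‖x‖
    rw [Ad_apply, CStarRing.norm_mul_mem_unitary _ (Unitary.star_mem (hG u hu)),
      CStarRing.norm_mem_unitary_mul _ (hG u hu)]

theorem isCompact_SG (hG : ∀ u ∈ G, u ∈ unitary (Op H)) : IsCompact (SG G) := by
  rw [isCompact_iff_ultrafilter_le_nhds]
  intro U hU
  have hev : ∀ᶠ Φ in (U : Filter (Mp H)), Φ ∈ SG G := le_principal_iff.1 hU
  choose L hL using fun x : Op H => exists_wl U (fun Φ : Mp H => Φ x) ‖x‖
    (hev.mono (fun Φ hΦ => norm_apply_le hG hΦ x))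
  let Λ : Mp H :=
    { toFun := L
      map_add' := fun x y => (hL (x + y)).unique (by
        simpa only [map_add] using (hL x).add (hL y))
      map_smul' := fun c x => (hL (c • x)).unique (by
        simpa only [map_smul, RingHom.id_apply] using (hL x).smul c) }
  have ht : Tendsto id (U : Filter (Mp H)) (𝓝 Λ) := tendsto_tau.2 hL
  exact ⟨Λ, isClosed_SG.mem_of_tendsto ht hev, ht⟩

/-- Limits along ultrafilters exist in the semigroup. -/
theorem exists_lim (hG : ∀ u ∈ G, u ∈ unitary (Op H)) {ι : Type} (U : Ultrafilter ι)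
    (F : ι → Mp H) (hF : ∀ᶠ i in (U : Filter ι), F i ∈ SG G) :
    ∃ Φ ∈ SG G, ∀ x, WL (U : Filter ι) (fun i => F i x) (Φ x) := by
  obtain ⟨Φ, hΦ, h⟩ := (isCompact_SG hG).ultrafilter_le_nhds (U.map F)
    (by rw [Ultrafilter.coe_map, le_principal_iff, mem_map]; exact hF)
  exact ⟨Φ, hΦ, tendsto_tau.1 h⟩

theorem mem_SG_of_wl {ι : Type} {l : Filter ι} [l.NeBot] {F : ι → Mp H} {Φ : Mp H}
    (hF : ∀ᶠ i in l, F i ∈ SG G) (h : ∀ x, WL l (fun i => F i x) (Φ x)) : Φ ∈ SG G :=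
  isClosed_SG.mem_of_tendsto (tendsto_tau.2 h) hF

theorem exists_minimal (hG : ∀ u ∈ G, u ∈ unitary (Op H)) (h1 : (1 : Op H) ∈ G) :
    ∃ e ∈ SG G, ∀ Ψ ∈ SG G, (∀ x, ‖Ψ x‖ ≤ ‖e x‖) → ∀ x, ‖e x‖ ≤ ‖Ψ x‖ := by
  let r : SG G → SG G → Prop := fun Φ Ψ => ∀ x, ‖Ψ.1 x‖ ≤ ‖Φ.1 x‖
  have : Nonempty (SG G) := ⟨⟨_, Ad_mem h1⟩⟩
  obtain ⟨e, he⟩ := exists_maximal_of_nonempty_chains_bounded (r := r) (fun c hc hne => by
    have : Nonempty c := hne.to_subtype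
    let F : c → Set (Mp H) := fun Φ => SG G ∩ ⋂ x, {Ψ | ‖Ψ x‖ ≤ ‖Φ.1.1 x‖}
    have hcl : ∀ Φ, IsClosed (F Φ) := fun Φ =>
      isClosed_SG.inter (isClosed_iInter (fun x => isClosed_norm_le x _))
    obtain ⟨Ψ, hΨ⟩ := IsCompact.nonempty_iInter_of_directed_nonempty_isCompact_isClosed F
      (by
        intro Φ Φ'
        have hsub : ∀ A B : c, r A.1 B.1 → F B ⊆ F A := fun A B hAB Θ hΘ =>
          ⟨hΘ.1, Set.mem_iInter.2 (fun x => (Set.mem_iInter.1 hΘ.2 x).trans (hAB x))⟩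
        by_cases h : Φ.1 = Φ'.1
        · exact ⟨Φ, subset_rfl, hsub Φ' Φ (fun x => by rw [h])⟩
        · rcases hc Φ.2 Φ'.2 h with h | h
          · exact ⟨Φ', hsub _ _ h, subset_rfl⟩
          · exact ⟨Φ, subset_rfl, hsub _ _ h⟩)
      (fun Φ => ⟨Φ.1.1, Φ.1.2, Set.mem_iInter.2 (fun x => le_refl ‖Φ.1.1 x‖)⟩)
      (fun Φ => (isCompact_SG hG).of_isClosed_subset (hcl Φ) Set.inter_subset_left) hcl
    rw [Set.mem_iInter] at hΨ
    obtain ⟨Φ₀⟩ := (inferInstance : Nonempty c)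
    exact ⟨⟨Ψ, (hΨ Φ₀).1⟩, fun Φ hΦ x => Set.mem_iInter.1 (hΨ ⟨Φ, hΦ⟩).2 x⟩)
    (fun hab hbc x => (hbc x).trans (hab x))
  exact ⟨e.1, e.2, fun Ψ hΨ h => he ⟨Ψ, hΨ⟩ h⟩

theorem avg_mem {k : ℕ} (F : ℕ → Mp H) (hF : ∀ i < k + 1, F i ∈ SG G) :
    ((k + 1 : ℕ) : ℝ)⁻¹ • ∑ i ∈ Finset.range (k + 1), F i ∈ SG G := by
  rw [Finset.smul_sum]
  refine convex_SG.sum_mem (fun i _ => by positivity) ?_
    (fun i hi => hF i (Finset.mem_range.1 hi))
  rw [Finset.sum_const, Finset.card_range, nsmul_eq_mul, mul_inv_cancel₀]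
  exact_mod_cast k.succ_ne_zero

theorem idem_of_minimal (hG : ∀ u ∈ G, u ∈ unitary (Op H)) (h1 : (1 : Op H) ∈ G)
    (hmul : ∀ u ∈ G, ∀ v ∈ G, u * v ∈ G) {φ : Mp H} (hφ : φ ∈ SG G)
    (hmin : ∀ Ψ ∈ SG G, (∀ x, ‖Ψ x‖ ≤ ‖φ x‖) → ∀ x, ‖φ x‖ ≤ ‖Ψ x‖) (x : Op H) :
    φ (φ x) = φ x := by
  have hpow : ∀ i : ℕ, φ ^ i ∈ SG G := by
    intro i
    induction i with
    | zero => rw [pow_zero, ← Ad_one]; exact Ad_mem h1
    | succ i ih => rw [pow_succ]; exact mul_mem_SG hmul ih hφ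
  have hb : ∀ k : ℕ, ‖φ (x - φ x)‖ ≤ (2 * ‖x‖) / ((k : ℝ) + 1) := by
    intro k
    have hA := avg_mem (k := k) (fun i => φ ^ i) (fun i _ => hpow i)
    have h2 := hmin _ (mul_mem_SG hmul hA hφ) (fun y => norm_apply_le hG hA (φ y)) (x - φ x)
    refine h2.trans ?_
    have h3 : ∑ i ∈ Finset.range (k + 1), (φ ^ i) (φ (x - φ x)) =
        (φ ^ (0 + 1)) x - (φ ^ (k + 1 + 1)) x := by
      rw [← Finset.sum_range_sub' (fun i => (φ ^ (i + 1)) x) (k + 1)]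
      refine Finset.sum_congr rfl (fun i _ => ?_)
      rw [map_sub, map_sub, pow_succ φ (i + 1), pow_succ φ i]
      rfl
    rw [Module.End.mul_apply, LinearMap.smul_apply, LinearMap.sum_apply, h3, norm_smul, norm_inv,
      Real.norm_natCast, div_eq_inv_mul]
    push_cast
    gcongr
    refine (norm_sub_le _ _).trans ?_
    have := norm_apply_le hG (hpow (0 + 1)) x
    have := norm_apply_le hG (hpow (k + 1 + 1)) x
    linarith
  have hlim : Tendsto (fun k : ℕ => (2 * ‖x‖) / ((k : ℝ) + 1)) atTop (𝓝 0) :=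
    tendsto_const_nhds.div_atTop (tendsto_atTop_add_const_right _ _ tendsto_natCast_atTop_atTop)
  have h0 : ‖φ (x - φ x)‖ ≤ 0 := ge_of_tendsto' hlim hb
  rw [norm_le_zero_iff, map_sub, sub_eq_zero] at h0
  exact h0.symm

/-- A rigid element: `e Θ e = e` for every `Θ` in the semigroup. -/
theorem exists_rigid (hG : ∀ u ∈ G, u ∈ unitary (Op H)) (h1 : (1 : Op H) ∈ G)
    (hmul : ∀ u ∈ G, ∀ v ∈ G, u * v ∈ G) :
    ∃ e ∈ SG G, ∀ Θ ∈ SG G, ∀ x, e (Θ (e x)) = e x := by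
  obtain ⟨e, he, hmin⟩ := exists_minimal hG h1
  refine ⟨e, he, fun Θ hΘ x => ?_⟩
  have hψ : e * Θ * e ∈ SG G := mul_mem_SG hmul (mul_mem_SG hmul he hΘ) he
  have hle : ∀ y, ‖(e * Θ * e) y‖ ≤ ‖e y‖ := fun y =>
    norm_apply_le hG (mul_mem_SG hmul he hΘ) (e y)
  have hge := hmin _ hψ hle
  have hid := idem_of_minimal hG h1 hmul hψ
    (fun Ψ hΨ h y => (hle y).trans (hmin Ψ hΨ (fun z => (h z).trans (hle z)) y)) x
  have h2 := hge (x - (e * Θ * e) x)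
  rw [map_sub (e * Θ * e), hid, sub_self, norm_zero, norm_le_zero_iff, map_sub, sub_eq_zero] at h2
  exact (idem_of_minimal hG h1 hmul he hmin (Θ (e x))).symm.trans h2.symm

end Pool.Agent.P.MP_7e3bdd_an.Dx
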