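import Mathlib

/-!
Weak operator limits along filters, and the pointwise weak topology on linear maps of `B(H)`.
-/

set_option autoImplicit false

open scoped InnerProductSpace Topology ComplexConjugate
open Filter

noncomputable section

namespace Pool.Agent.P.MP_7e3bdd_an.Dx

/-- Bounded operators. -/
abbrev Op (H : Type) [NormedAddCommGroup H] [InnerProductSpace ℂ H] : Type := H →L[ℂ] H

/-- Linear maps of the algebra of bounded operators. -/
abbrev Mp (H : Type) [NormedAddCommGroup H] [InnerProductSpace ℂ H] : Type :=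
  Module.End ℂ (H →L[ℂ] H)

variable {H : Type} [NormedAddCommGroup H] [InnerProductSpace ℂ H]

/-- The matrix coefficients of an operator. -/
def cf (T : Op H) : H × H → ℂ := fun p => ⟪p.2, T p.1⟫_ℂ

theorem cf_injective : Function.Injective (cf : Op H → H × H → ℂ) := by
  intro S T h
  ext ξ
  exact ext_inner_left ℂ (fun η => congrFun h (ξ, η))

/-- Weak operator convergence along a filter. -/
def WL {ι : Type} (l : Filter ι) (T : ι → Op H) (S : Op H) : Prop :=
  ∀ ξ η : H, Tendsto (fun i => ⟪η, T i ξ⟫_ℂ) l (𝓝 ⟪η, S ξ⟫_ℂ)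

theorem wl_iff {ι : Type} {l : Filter ι} {T : ι → Op H} {S : Op H} :
    WL l T S ↔ Tendsto (fun i => cf (T i)) l (𝓝 (cf S)) := by
  rw [tendsto_pi_nhds]
  exact ⟨fun h p => h p.1 p.2, fun h ξ η => h (ξ, η)⟩

theorem exists_ulim {ι : Type} (U : Ultrafilter ι) (s : ι → ℂ) (C : ℝ)
    (hs : ∀ᶠ i in (U : Filter ι), ‖s i‖ ≤ C) : ∃ l : ℂ, Tendsto s (U : Filter ι) (𝓝 l) := by
  have hc : IsCompact (Metric.closedBall (0 : ℂ) C) := isCompact_closedBall _ _
  have hle : (Ultrafilter.map s U : Filter ℂ) ≤ 𝓟 (Metric.closedBall (0 : ℂ) C) := by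
    rw [Ultrafilter.coe_map, le_principal_iff, mem_map]
    exact hs.mono (fun n hn => by simpa using hn)
  obtain ⟨l, _, hl⟩ := hc.ultrafilter_le_nhds _ hle
  exact ⟨l, hl⟩

theorem exists_wl [CompleteSpace H] {ι : Type} (U : Ultrafilter ι) (T : ι → Op H) (C : ℝ)
    (hT : ∀ᶠ i in (U : Filter ι), ‖T i‖ ≤ C) : ∃ S : Op H, WL (U : Filter ι) T S := by
  have hb : ∀ v w : H, ∀ᶠ n in (U : Filter ι), ‖⟪T n v, w⟫_ℂ‖ ≤ C * ‖v‖ * ‖w‖ := by
    intro v w
    refine hT.mono (fun n hn => (norm_inner_le_norm _ _).trans ?_)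
    gcongr
    exact ((T n).le_opNorm v).trans (by gcongr)
  choose L hL using fun v w : H => exists_ulim U (fun n => ⟪T n v, w⟫_ℂ) _ (hb v w)
  let B₀ : H →ₛₗ[starRingEnd ℂ] H →ₛₗ[RingHom.id ℂ] ℂ :=
    LinearMap.mk₂'ₛₗ (starRingEnd ℂ) (RingHom.id ℂ) L
      (fun v₁ v₂ w => tendsto_nhds_unique (hL (v₁ + v₂) w) (by
        simpa [inner_add_left] using (hL v₁ w).add (hL v₂ w)))
      (fun c v w => tendsto_nhds_unique (hL (c • v) w) (by
        simpa [inner_smul_left, mul_comm] using (hL v w).const_mul (conj c)))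
      (fun v w₁ w₂ => tendsto_nhds_unique (hL v (w₁ + w₂)) (by
        simpa [inner_add_right] using (hL v w₁).add (hL v w₂)))
      (fun c v w => tendsto_nhds_unique (hL v (c • w)) (by
        simpa [inner_smul_right] using (hL v w).const_mul c))
  have hB₀ : ∀ v w, ‖B₀ v w‖ ≤ C * ‖v‖ * ‖w‖ := fun v w =>
    le_of_tendsto (hL v w).norm (hb v w)
  refine ⟨InnerProductSpace.continuousLinearMapOfBilin (B₀.mkContinuous₂ C hB₀), fun ξ η => ?_⟩
  have h1 : ⟪InnerProductSpace.continuousLinearMapOfBilin (B₀.mkContinuous₂ C hB₀) ξ, η⟫_ℂ =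
      L ξ η := by
    rw [InnerProductSpace.continuousLinearMapOfBilin_apply]
    rfl
  have h2 := (Complex.continuous_conj.tendsto _).comp (hL ξ η)
  rw [← inner_conj_symm, h1]
  simpa [Function.comp_def] using h2

section WL

variable {ι : Type} {l : Filter ι} {T T' : ι → Op H} {S S' : Op H}

theorem WL.unique [l.NeBot] (h : WL l T S) (h' : WL l T S') : S = S' :=
  cf_injective (tendsto_nhds_unique (wl_iff.1 h) (wl_iff.1 h'))

theorem WL.const (S : Op H) : WL l (fun _ => S) S := fun _ _ => tendsto_const_nhds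

theorem WL.congr' (h : WL l T S) (he : ∀ᶠ i in l, T i = T' i) : WL l T' S := fun ξ η =>
  (h ξ η).congr' (he.mono (fun i hi => by simp only [hi]))

theorem WL.add (h : WL l T S) (h' : WL l T' S') : WL l (fun n => T n + T' n) (S + S') :=
  fun ξ η => by simpa [inner_add_right] using (h ξ η).add (h' ξ η)

theorem WL.sub (h : WL l T S) (h' : WL l T' S') : WL l (fun n => T n - T' n) (S - S') :=
  fun ξ η => by simpa [inner_sub_right] using (h ξ η).sub (h' ξ η)

theorem WL.smul (h : WL l T S) (c : ℂ) : WL l (fun n => c • T n) (c • S) :=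
  fun ξ η => by simpa [inner_smul_right] using (h ξ η).const_mul c

theorem WL.sum {κ : Type} (s : Finset κ) {A : κ → ι → Op H} {B : κ → Op H}
    (h : ∀ k ∈ s, WL l (A k) (B k)) : WL l (fun i => ∑ k ∈ s, A k i) (∑ k ∈ s, B k) := by
  classical
  induction s using Finset.induction_on with
  | empty => simpa using WL.const 0
  | insert a s ha ih =>
    simp only [Finset.sum_insert ha]
    exact (h a (Finset.mem_insert_self a s)).add
      (ih (fun k hk => h k (Finset.mem_insert_of_mem hk)))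

theorem WL.mul_mul [CompleteSpace H] (h : WL l T S) (a b : Op H) :
    WL l (fun n => a * T n * b) (a * S * b) := fun ξ η => by
  have := h (b ξ) (ContinuousLinearMap.adjoint a η)
  simpa [ContinuousLinearMap.adjoint_inner_left] using this

theorem WL.mul_left [CompleteSpace H] (h : WL l T S) (a : Op H) :
    WL l (fun n => a * T n) (a * S) := by
  simpa using h.mul_mul a 1

theorem WL.mul_right (h : WL l T S) (b : Op H) : WL l (fun n => T n * b) (S * b) :=
  fun ξ η => h (b ξ) η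

theorem WL.star [CompleteSpace H] (h : WL l T S) : WL l (fun n => star (T n)) (star S) :=
  fun ξ η => by
    have h2 := (Complex.continuous_conj.tendsto _).comp (h η ξ)
    simpa [Function.comp_def, ContinuousLinearMap.star_eq_adjoint,
      ContinuousLinearMap.adjoint_inner_right] using h2

theorem norm_le_of_inner {S : Op H} {C : ℝ} (hC : 0 ≤ C)
    (h : ∀ ξ η : H, ‖⟪η, S ξ⟫_ℂ‖ ≤ ‖η‖ * (C * ‖ξ‖)) : ‖S‖ ≤ C := by
  refine S.opNorm_le_bound hC (fun ξ => ?_)
  have h1 := h ξ (S ξ)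
  rw [inner_self_eq_norm_sq_to_K] at h1
  have h2 : ‖S ξ‖ * ‖S ξ‖ ≤ ‖S ξ‖ * (C * ‖ξ‖) := by
    simpa [sq] using h1
  rcases (norm_nonneg (S ξ)).eq_or_lt with h0 | h0
  · rw [← h0]; positivity
  · exact le_of_mul_le_mul_left h2 h0

theorem inner_le_of_norm {S : Op H} {C : ℝ} (h : ‖S‖ ≤ C) (ξ η : H) :
    ‖⟪η, S ξ⟫_ℂ‖ ≤ ‖η‖ * (C * ‖ξ‖) := by
  refine (norm_inner_le_norm _ _).trans ?_
  gcongr
  exact (S.le_opNorm ξ).trans (by gcongr)

theorem WL.norm_le [l.NeBot] (h : WL l T S) {C : ℝ} (hT : ∀ᶠ i in l, ‖T i‖ ≤ C) : ‖S‖ ≤ C := by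
  obtain ⟨i, hi⟩ := hT.exists
  refine norm_le_of_inner ((norm_nonneg _).trans hi) (fun ξ η => ?_)
  exact le_of_tendsto (h ξ η).norm (hT.mono (fun i hi => inner_le_of_norm hi ξ η))

open ComplexOrder in
theorem nonneg_iff_inner {S : Op H} : 0 ≤ S ↔ ∀ ξ, 0 ≤ ⟪ξ, S ξ⟫_ℂ := by
  rw [ContinuousLinearMap.nonneg_iff_isPositive]
  refine ⟨fun h ξ => h.inner_nonneg_right ξ, fun h1 => ?_⟩
  rw [ContinuousLinearMap.isPositive_iff_complex]
  intro ξ
  have h2 := h1 ξ
  rw [Complex.nonneg_iff] at h2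
  have h3 : ⟪S ξ, ξ⟫_ℂ = conj ⟪ξ, S ξ⟫_ℂ := (inner_conj_symm _ _).symm
  generalize ⟪ξ, S ξ⟫_ℂ = z at h2 h3
  rw [h3]
  constructor
  · apply Complex.ext
    · simp
    · simp [h2.2.symm]
  · simpa using h2.1

open ComplexOrder in
theorem WL.nonneg [l.NeBot] (h : WL l T S) (hT : ∀ᶠ i in l, 0 ≤ T i) : 0 ≤ S :=
  nonneg_iff_inner.2 (fun ξ =>
    ge_of_tendsto (h ξ ξ) (hT.mono (fun _ hi => nonneg_iff_inner.1 hi ξ)))

theorem WL.le [CompleteSpace H] [l.NeBot] (h : WL l T S) (h' : WL l T' S') (hT : ∀ᶠ i in l, T i ≤ T' i) :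
    S ≤ S' :=
  sub_nonneg.1 ((h'.sub h).nonneg (hT.mono (fun _ hi => sub_nonneg.2 hi)))

theorem WL.eq [l.NeBot] (h : WL l T S) (h' : WL l T' S') (hT : ∀ᶠ i in l, T i = T' i) :
    S = S' := (h.congr' hT).unique h'

theorem WL.mem [CompleteSpace H] [l.NeBot] (h : WL l T S) (N : VonNeumannAlgebra H)
    (hT : ∀ᶠ i in l, T i ∈ N) : S ∈ N := by
  rw [← N.commutant_commutant, VonNeumannAlgebra.mem_commutant_iff]
  intro c hc
  refine (h.mul_left c).eq (h.mul_right c) (hT.mono (fun i hi => ?_))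
  exact ((VonNeumannAlgebra.mem_commutant_iff.1 hc) _ hi).symm

theorem wl_of_norm (h : WL l T S) (hd : Tendsto (fun n => ‖T' n - T n‖) l (𝓝 0)) :
    WL l T' S := fun ξ η => by
  have h1 : Tendsto (fun n => ⟪η, (T' n - T n) ξ⟫_ℂ) l (𝓝 0) := by
    rw [tendsto_zero_iff_norm_tendsto_zero]
    have h2 : Tendsto (fun n => ‖η‖ * (‖T' n - T n‖ * ‖ξ‖)) l (𝓝 0) := by
      simpa using (hd.mul_const ‖ξ‖).const_mul ‖η‖
    exact squeeze_zero (fun n => norm_nonneg _) (fun n => inner_le_of_norm le_rfl ξ η) h2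
  have := (h ξ η).add h1
  simpa [inner_sub_right] using this

end WL

/-- The topology of pointwise weak operator convergence. -/
@[reducible] def tau (H : Type) [NormedAddCommGroup H] [InnerProductSpace ℂ H] :
    TopologicalSpace (Mp H) :=
  TopologicalSpace.induced (fun Φ : Mp H => fun x : Op H => cf (Φ x)) inferInstance

attribute [local instance] tau

theorem tendsto_tau {ι : Type} {l : Filter ι} {F : ι → Mp H} {Φ : Mp H} :
    Tendsto F l (𝓝 Φ) ↔ ∀ x, WL l (fun i => F i x) (Φ x) := by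
  rw [nhds_induced, tendsto_comap_iff, tendsto_pi_nhds]
  exact forall_congr' (fun x => wl_iff.symm)

theorem wl_eval (Φ : Mp H) (x : Op H) : WL (𝓝 Φ) (fun Ψ => Ψ x) (Φ x) :=
  tendsto_tau.1 tendsto_id x

/-- A set is closed when it is stable under limits along nontrivial filters. -/
theorem isClosed_of_wl {P : Set (Mp H)}
    (h : ∀ (l : Filter (Mp H)) (Φ : Mp H), l.NeBot → (∀ᶠ Ψ in l, Ψ ∈ P) →
      (∀ x, WL l (fun Ψ => Ψ x) (Φ x)) → Φ ∈ P) : IsClosed P := by
  rw [isClosed_iff_clusterPt]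
  intro Φ hΦ
  refine h (𝓝 Φ ⊓ 𝓟 P) Φ hΦ (mem_inf_of_right (mem_principal_self P)) (fun x ξ η => ?_)
  exact (wl_eval Φ x ξ η).mono_left inf_le_left

theorem continuous_tau {α : Type} [TopologicalSpace α] {F : α → Mp H}
    (h : ∀ a x, WL (𝓝 a) (fun b => F b x) (F a x)) : Continuous F :=
  continuous_iff_continuousAt.2 (fun a => tendsto_tau.2 (h a))

end Pool.Agent.P.MP_7e3bdd_an.Dx
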